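import Pool.Agent.H23K.Decay

/-!
Boxes of the lattice `ℤ^d`.
-/

set_option autoImplicit false
set_option linter.unusedSectionVars false

open Finset

namespace Pool.Agent.H23K

/-- the `ℓ¹`-distance -/
def l1 {d L : ℕ} (x y : Fin d → Fin L) : ℕ := ∑ i, ((x i : ℤ) - (y i : ℤ)).natAbs

theorem l1_comm {d L : ℕ} (x y : Fin d → Fin L) : l1 x y = l1 y x := by
  unfold l1
  exact sum_congr rfl fun i _ => by omega

theorem l1_self {d L : ℕ} (x : Fin d → Fin L) : l1 x x = 0 := by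
  unfold l1; simp

theorem l1_tri {d L : ℕ} (x y z : Fin d → Fin L) : l1 x z ≤ l1 x y + l1 y z := by
  unfold l1
  rw [← sum_add_distrib]
  exact sum_le_sum fun i _ => by omega

theorem l1_zero {d L : ℕ} {x y : Fin d → Fin L} (h : l1 x y = 0) : x = y := by
  unfold l1 at h
  rw [sum_eq_zero_iff] at h
  funext i
  have := h i (mem_univ i)
  apply Fin.ext
  omega

/-- the box `{0, …, L - 1}^d` with nearest neighbour edges -/
def box (d L : ℕ) : SimpleGraph (Fin d → Fin L) where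
  Adj x y := l1 x y = 1
  symm := ⟨fun x y h => by
    show l1 y x = 1
    rw [← h, l1_comm]⟩
  loopless := ⟨fun x h => by
    have : l1 x x = 0 := l1_self x
    omega⟩

theorem l1_one {d L : ℕ} {x y : Fin d → Fin L} (h : l1 x y = 1) :
    ∃ i, ((x i : ℤ) - (y i : ℤ)).natAbs = 1 ∧ ∀ j, j ≠ i → x j = y j := by
  have h1 : ∃ i, ((x i : ℤ) - (y i : ℤ)).natAbs ≠ 0 := by
    by_contra hcon
    push Not at hcon
    have : l1 x y = 0 := by unfold l1; exact sum_eq_zero fun i _ => hcon i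
    omega
  obtain ⟨i, hi⟩ := h1
  unfold l1 at h
  rw [← add_sum_erase univ _ (mem_univ i)] at h
  have h2 : ∑ j ∈ univ.erase i, ((x j : ℤ) - (y j : ℤ)).natAbs = 0 := by omega
  refine ⟨i, by omega, fun j hj => ?_⟩
  rw [sum_eq_zero_iff] at h2
  have := h2 j (mem_erase.2 ⟨hj, mem_univ j⟩)
  apply Fin.ext
  omega

theorem level_step {d L : ℕ} (v : Fin d → Fin L) (x y : Fin d → Fin L) (h : (box d L).Adj x y) :
    l1 x v = l1 y v + 1 ∨ l1 y v = l1 x v + 1 := by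
  obtain ⟨i, hi, hj⟩ := l1_one h
  have e1 : l1 x v = ((x i : ℤ) - (v i : ℤ)).natAbs
      + ∑ j ∈ univ.erase i, ((x j : ℤ) - (v j : ℤ)).natAbs := (add_sum_erase univ _ (mem_univ i)).symm
  have e2 : l1 y v = ((y i : ℤ) - (v i : ℤ)).natAbs
      + ∑ j ∈ univ.erase i, ((y j : ℤ) - (v j : ℤ)).natAbs := (add_sum_erase univ _ (mem_univ i)).symm
  have h2 : ∑ j ∈ univ.erase i, ((x j : ℤ) - (v j : ℤ)).natAbs
      = ∑ j ∈ univ.erase i, ((y j : ℤ) - (v j : ℤ)).natAbs := by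
    apply sum_congr rfl
    intro j hj'
    rw [hj j (mem_erase.1 hj').1]
  rw [h2] at e1
  omega

theorem box_degree {d : ℕ} (hd : 0 < d) (L : ℕ) (x : Fin d → Fin L) : dgr (box d L) x ≤ 2 * d := by
  classical
  unfold dgr
  have hc : Fintype.card (Fin d × Bool) = 2 * d := by
    rw [Fintype.card_prod, Fintype.card_fin, Fintype.card_bool, mul_comm]
  rw [← hc, ← card_univ]
  have hch : ∀ y : Fin d → Fin L, ∃ i, (box d L).Adj x y →
      (((x i : ℤ) - (y i : ℤ)).natAbs = 1 ∧ ∀ j, j ≠ i → x j = y j) := by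
    intro y
    by_cases h : (box d L).Adj x y
    · obtain ⟨i, hi⟩ := l1_one h
      exact ⟨i, fun _ => hi⟩
    · exact ⟨⟨0, hd⟩, fun h' => absurd h' h⟩
  choose f hf using hch
  apply card_le_card_of_injOn (fun y => (f y, decide (x (f y) < y (f y))))
  · intro y _; simp
  · intro y hy z hz h
    rw [mem_coe, mem_filter] at hy hz
    simp only [Prod.mk.injEq] at h
    obtain ⟨h1, h2⟩ := h
    have hy' := hf y hy.2
    have hz' := hf z hz.2
    rw [← h1] at hz' h2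
    rw [decide_eq_decide, Fin.lt_def, Fin.lt_def] at h2
    funext j
    by_cases hj : j = f y
    · rw [hj]
      apply Fin.ext
      omega
    · rw [← hy'.2 j hj, hz'.2 j hj]

/-! ### squares -/

/-- change the coordinates `i0`, `i1` of `p` to `x`, `y` -/
def pt {d L : ℕ} (i0 i1 : Fin d) (p : Fin d → Fin L) (x y : Fin L) : Fin d → Fin L :=
  fun i => if i = i0 then x else if i = i1 then y else p i

section
variable {d L : ℕ} {i0 i1 : Fin d} (h01 : i0 ≠ i1)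
include h01

theorem pt_0 (p : Fin d → Fin L) (x y : Fin L) : pt i0 i1 p x y i0 = x := by
  unfold pt; rw [if_pos rfl]

theorem pt_1 (p : Fin d → Fin L) (x y : Fin L) : pt i0 i1 p x y i1 = y := by
  unfold pt; rw [if_neg h01.symm, if_pos rfl]

theorem pt_eta (p : Fin d → Fin L) : pt i0 i1 p (p i0) (p i1) = p := by
  funext i
  unfold pt
  split_ifs with h1 h2
  · rw [h1]
  · rw [h2]
  · rfl

theorem pt_pt (p : Fin d → Fin L) (x y x' y' : Fin L) :
    pt i0 i1 (pt i0 i1 p x y) x' y' = pt i0 i1 p x' y' := by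
  funext i
  unfold pt
  split_ifs <;> rfl

theorem l1_pt (p : Fin d → Fin L) (x y x' y' : Fin L) :
    l1 (pt i0 i1 p x y) (pt i0 i1 p x' y')
      = ((x : ℤ) - (x' : ℤ)).natAbs + ((y : ℤ) - (y' : ℤ)).natAbs := by
  unfold l1
  rw [Fintype.sum_eq_add i0 i1 h01, pt_0 h01, pt_0 h01, pt_1 h01, pt_1 h01]
  rintro i ⟨h1, h2⟩
  unfold pt
  rw [if_neg h1, if_neg h2, if_neg h1, if_neg h2]
  simp

end

/-- the even coordinate of the square next to `t` -/
def gv (L t : ℕ) : ℕ := min (2 * (t / 2)) (2 * (L / 2) - 2)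

theorem gv_spec {L t : ℕ} (hL : 2 ≤ L) (ht : t < L) :
    gv L t + 1 < L ∧ gv L t ≤ t ∧ t ≤ gv L t + 2 ∧ gv L t % 2 = 0 := by
  unfold gv
  omega

/-- valid bases of squares -/
def Valid {d L : ℕ} (i0 i1 : Fin d) (β : Fin d → Fin L) : Prop :=
  (β i0 : ℕ) % 2 = 0 ∧ (β i0 : ℕ) + 1 < L ∧ (β i1 : ℕ) % 2 = 0 ∧ (β i1 : ℕ) + 1 < L

/-- the squares -/
def sq {d L : ℕ} (i0 i1 : Fin d) (β : {β : Fin d → Fin L // Valid i0 i1 β}) :
    Fin 4 → (Fin d → Fin L) :=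
  ![pt i0 i1 β.1 (β.1 i0) (β.1 i1), pt i0 i1 β.1 ⟨β.1 i0 + 1, β.2.2.1⟩ (β.1 i1),
    pt i0 i1 β.1 ⟨β.1 i0 + 1, β.2.2.1⟩ ⟨β.1 i1 + 1, β.2.2.2.2⟩,
    pt i0 i1 β.1 (β.1 i0) ⟨β.1 i1 + 1, β.2.2.2.2⟩]

/-- all points of a square -/
theorem sq_form {d L : ℕ} {i0 i1 : Fin d} (β : {β : Fin d → Fin L // Valid i0 i1 β}) (i : Fin 4) :
    ∃ x y : Fin L, sq i0 i1 β i = pt i0 i1 β.1 x y ∧
      ((x : ℕ) = β.1 i0 ∨ (x : ℕ) = β.1 i0 + 1) ∧ ((y : ℕ) = β.1 i1 ∨ (y : ℕ) = β.1 i1 + 1) := by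
  fin_cases i
  · exact ⟨_, _, rfl, Or.inl rfl, Or.inl rfl⟩
  · exact ⟨_, _, rfl, Or.inr rfl, Or.inl rfl⟩
  · exact ⟨_, _, rfl, Or.inr rfl, Or.inr rfl⟩
  · exact ⟨_, _, rfl, Or.inl rfl, Or.inr rfl⟩

theorem squares_box {d L : ℕ} {i0 i1 : Fin d} (h01 : i0 ≠ i1) :
    Squares (box d L) {β : Fin d → Fin L // Valid i0 i1 β} (sq i0 i1) where
  adj := by
    intro β i
    show l1 _ _ = 1
    fin_cases i
    · show l1 (pt i0 i1 _ _ _) (pt i0 i1 _ _ _) = 1
      rw [l1_pt h01]; simp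
    · show l1 (pt i0 i1 _ _ _) (pt i0 i1 _ _ _) = 1
      rw [l1_pt h01]; simp
    · show l1 (pt i0 i1 _ _ _) (pt i0 i1 _ _ _) = 1
      rw [l1_pt h01]; simp
    · show l1 (pt i0 i1 _ _ _) (pt i0 i1 _ _ _) = 1
      rw [l1_pt h01]; simp
  ne := by
    intro β i h
    have h2 : l1 (sq i0 i1 β i) (sq i0 i1 β (i + 2)) = 0 := by rw [← h, l1_self]
    revert h2
    fin_cases i
    · show l1 (pt i0 i1 _ _ _) (pt i0 i1 _ _ _) = 0 → False
      rw [l1_pt h01]; simp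
    · show l1 (pt i0 i1 _ _ _) (pt i0 i1 _ _ _) = 0 → False
      rw [l1_pt h01]; simp
    · show l1 (pt i0 i1 _ _ _) (pt i0 i1 _ _ _) = 0 → False
      rw [l1_pt h01]; simp
    · show l1 (pt i0 i1 _ _ _) (pt i0 i1 _ _ _) = 0 → False
      rw [l1_pt h01]; simp
  disj := by
    intro β β' i j h
    obtain ⟨x, y, h1, hx, hy⟩ := sq_form β i
    obtain ⟨x', y', h1', hx', hy'⟩ := sq_form β' j
    rw [h1, h1'] at h
    have e0 : x = x' := by
      have := congrFun h i0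
      rwa [pt_0 h01, pt_0 h01] at this
    have e1 : y = y' := by
      have := congrFun h i1
      rwa [pt_1 h01, pt_1 h01] at this
    subst e0
    subst e1
    obtain ⟨v1, v2, v3, v4⟩ := β.2
    obtain ⟨w1, w2, w3, w4⟩ := β'.2
    apply Subtype.ext
    funext k
    by_cases hk0 : k = i0
    · rw [hk0]; apply Fin.ext; omega
    · by_cases hk1 : k = i1
      · rw [hk1]; apply Fin.ext; omega
      · have := congrFun h k
        unfold pt at this
        rwa [if_neg hk0, if_neg hk1, if_neg hk0, if_neg hk1] at this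

/-- the coordinate of the square next to `t` -/
def gf {L : ℕ} (hL : 2 ≤ L) (t : Fin L) : Fin L := ⟨gv L t, by have := gv_spec hL t.2; omega⟩

/-- the square of a point -/
def bs {d L : ℕ} {i0 i1 : Fin d} (h01 : i0 ≠ i1) (hL : 2 ≤ L) (p : Fin d → Fin L) :
    {β : Fin d → Fin L // Valid i0 i1 β} :=
  ⟨pt i0 i1 p (gf hL (p i0)) (gf hL (p i1)), by
    unfold Valid
    rw [pt_0 h01, pt_1 h01]
    have h1 := gv_spec hL (p i0).2
    have h2 := gv_spec hL (p i1).2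
    exact ⟨h1.2.2.2, h1.1, h2.2.2.2, h2.1⟩⟩

theorem bs_near {d L : ℕ} {i0 i1 : Fin d} (h01 : i0 ≠ i1) (hL : 2 ≤ L) (p : Fin d → Fin L)
    (i : Fin 4) : l1 p (sq i0 i1 (bs h01 hL p) i) ≤ 4 := by
  obtain ⟨x, y, h1, hx, hy⟩ := sq_form (bs h01 hL p) i
  rw [h1]
  have e1 : pt i0 i1 (bs h01 hL p).1 x y = pt i0 i1 p x y := pt_pt h01 p _ _ x y
  have e2 : l1 p (pt i0 i1 p x y) = l1 (pt i0 i1 p (p i0) (p i1)) (pt i0 i1 p x y) := by
    rw [pt_eta h01]
  rw [e1, e2, l1_pt h01]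
  have e3 : ((bs h01 hL p).1 i0 : ℕ) = gv L (p i0) := by
    show ((pt i0 i1 p (gf hL (p i0)) (gf hL (p i1)) i0 : Fin L) : ℕ) = _
    rw [pt_0 h01]; rfl
  have e4 : ((bs h01 hL p).1 i1 : ℕ) = gv L (p i1) := by
    show ((pt i0 i1 p (gf hL (p i0)) (gf hL (p i1)) i1 : Fin L) : ℕ) = _
    rw [pt_1 h01]; rfl
  have h3 := gv_spec hL (p i0).2
  have h4 := gv_spec hL (p i1).2
  rw [e3] at hx
  rw [e4] at hy
  omega

theorem bs_mult {d L : ℕ} {i0 i1 : Fin d} (h01 : i0 ≠ i1) (hL : 2 ≤ L)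
    (β : {β : Fin d → Fin L // Valid i0 i1 β}) [DecidablePred fun p => bs h01 hL p = β] :
    (univ.filter (fun p => bs h01 hL p = β)).card ≤ 9 := by
  have hc : Fintype.card (Fin 3 × Fin 3) = 9 := by simp
  rw [← hc, ← card_univ]
  have key : ∀ p, bs h01 hL p = β → p = pt i0 i1 β.1 (p i0) (p i1) ∧
      (β.1 i0 : ℕ) = gv L (p i0) ∧ (β.1 i1 : ℕ) = gv L (p i1) := by
    intro p hp
    rw [← hp]
    refine ⟨?_, ?_, ?_⟩
    · show p = pt i0 i1 (pt i0 i1 p _ _) (p i0) (p i1)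
      rw [pt_pt h01, pt_eta h01]
    · show ((pt i0 i1 p (gf hL (p i0)) (gf hL (p i1)) i0 : Fin L) : ℕ) = _
      rw [pt_0 h01]; rfl
    · show ((pt i0 i1 p (gf hL (p i0)) (gf hL (p i1)) i1 : Fin L) : ℕ) = _
      rw [pt_1 h01]; rfl
  apply card_le_card_of_injOn (fun p => (⟨((p i0 : ℕ) - gv L (p i0)) % 3, Nat.mod_lt _ (by norm_num)⟩,
    ⟨((p i1 : ℕ) - gv L (p i1)) % 3, Nat.mod_lt _ (by norm_num)⟩))
  · intro p _; simp
  · intro p hp p' hp' h
    rw [mem_coe, mem_filter] at hp hp'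
    obtain ⟨k1, k2, k3⟩ := key p hp.2
    obtain ⟨k1', k2', k3'⟩ := key p' hp'.2
    simp only [Prod.mk.injEq, Fin.mk.injEq] at h
    obtain ⟨h1, h2⟩ := h
    have s1 := gv_spec hL (p i0).2
    have s2 := gv_spec hL (p i1).2
    have s3 := gv_spec hL (p' i0).2
    have s4 := gv_spec hL (p' i1).2
    have e0 : p i0 = p' i0 := by apply Fin.ext; omega
    have e1 : p i1 = p' i1 := by apply Fin.ext; omega
    rw [k1, k1', e0, e1]

theorem adj_or {d L : ℕ} {x y : Fin d → Fin L} (h : l1 x y ≤ 1) : x = y ∨ (box d L).Adj x y := by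
  rcases Nat.eq_zero_or_pos (l1 x y) with h0 | h0
  · left; exact l1_zero h0
  · right
    show l1 x y = 1
    omega

/-- one step towards the square -/
def md {L : ℕ} (hL : 2 ≤ L) (t : Fin L) : Fin L :=
  ⟨max (gv L t) (t - 1), by have := gv_spec hL t.2; have := t.2; omega⟩

/-- the path from `p` to its square and around it -/
def pw {d L : ℕ} (i0 i1 : Fin d) (hL : 2 ≤ L) (p : Fin d → Fin L) : ℕ → (Fin d → Fin L)
  | 0 => p
  | 1 => pt i0 i1 p (md hL (p i0)) (p i1)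
  | 2 => pt i0 i1 p (gf hL (p i0)) (p i1)
  | 3 => pt i0 i1 p (gf hL (p i0)) (md hL (p i1))
  | 4 => pt i0 i1 p (gf hL (p i0)) (gf hL (p i1))
  | 5 => pt i0 i1 p ⟨gv L (p i0) + 1, (gv_spec hL (p i0).2).1⟩ (gf hL (p i1))
  | 6 => pt i0 i1 p ⟨gv L (p i0) + 1, (gv_spec hL (p i0).2).1⟩
      ⟨gv L (p i1) + 1, (gv_spec hL (p i1).2).1⟩
  | _ => pt i0 i1 p (gf hL (p i0)) ⟨gv L (p i1) + 1, (gv_spec hL (p i1).2).1⟩

theorem pw_step {d L : ℕ} {i0 i1 : Fin d} (h01 : i0 ≠ i1) (hL : 2 ≤ L) (p : Fin d → Fin L)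
    (i : ℕ) (hi : i < 7) : pw i0 i1 hL p (i + 1) = pw i0 i1 hL p i ∨
      (box d L).Adj (pw i0 i1 hL p (i + 1)) (pw i0 i1 hL p i) := by
  apply adj_or
  have s1 := gv_spec hL (p i0).2
  have s2 := gv_spec hL (p i1).2
  interval_cases i
  · show l1 (pt i0 i1 p (md hL (p i0)) (p i1)) p ≤ 1
    have e : l1 (pt i0 i1 p (md hL (p i0)) (p i1)) p
        = l1 (pt i0 i1 p (md hL (p i0)) (p i1)) (pt i0 i1 p (p i0) (p i1)) := by
      rw [pt_eta h01]
    rw [e, l1_pt h01]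
    unfold md
    simp only
    omega
  · show l1 (pt i0 i1 p _ _) (pt i0 i1 p _ _) ≤ 1
    rw [l1_pt h01]
    unfold md gf
    simp only
    omega
  · show l1 (pt i0 i1 p _ _) (pt i0 i1 p _ _) ≤ 1
    rw [l1_pt h01]
    unfold md gf
    simp only
    omega
  · show l1 (pt i0 i1 p _ _) (pt i0 i1 p _ _) ≤ 1
    rw [l1_pt h01]
    unfold md gf
    simp only
    omega
  · show l1 (pt i0 i1 p _ _) (pt i0 i1 p _ _) ≤ 1
    rw [l1_pt h01]
    unfold gf
    simp only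
    omega
  · show l1 (pt i0 i1 p _ _) (pt i0 i1 p _ _) ≤ 1
    rw [l1_pt h01]
    unfold gf
    simp only
    omega
  · show l1 (pt i0 i1 p _ _) (pt i0 i1 p _ _) ≤ 1
    rw [l1_pt h01]
    unfold gf
    simp only
    omega

theorem sq_pw {d L : ℕ} {i0 i1 : Fin d} (h01 : i0 ≠ i1) (hL : 2 ≤ L) (p : Fin d → Fin L)
    (i : Fin 4) : sq i0 i1 (bs h01 hL p) i = pw i0 i1 hL p (4 + i) := by
  have e3 : (bs h01 hL p).1 i0 = gf hL (p i0) := pt_0 h01 _ _ _
  have e4 : (bs h01 hL p).1 i1 = gf hL (p i1) := pt_1 h01 _ _ _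
  have e5 : ((bs h01 hL p).1 i0 : ℕ) = gv L (p i0) := by rw [e3]; rfl
  have e6 : ((bs h01 hL p).1 i1 : ℕ) = gv L (p i1) := by rw [e4]; rfl
  fin_cases i
  · show pt i0 i1 (pt i0 i1 p _ _) _ _ = pt i0 i1 p _ _
    rw [pt_pt h01, e3, e4]
  · show pt i0 i1 (pt i0 i1 p _ _) _ _ = pt i0 i1 p _ _
    rw [pt_pt h01]
    congr 1
    apply Fin.ext
    show ((bs h01 hL p).1 i0 : ℕ) + 1 = gv L (p i0) + 1
    rw [e5]
  · show pt i0 i1 (pt i0 i1 p _ _) _ _ = pt i0 i1 p _ _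
    rw [pt_pt h01]
    congr 1
    · apply Fin.ext
      show ((bs h01 hL p).1 i0 : ℕ) + 1 = gv L (p i0) + 1
      rw [e5]
    · apply Fin.ext
      show ((bs h01 hL p).1 i1 : ℕ) + 1 = gv L (p i1) + 1
      rw [e6]
  · show pt i0 i1 (pt i0 i1 p _ _) _ _ = pt i0 i1 p _ _
    rw [pt_pt h01]
    congr 1
    apply Fin.ext
    show ((bs h01 hL p).1 i1 : ℕ) + 1 = gv L (p i1) + 1
    rw [e6]

section
variable {C : Type} [Fintype C] [DecidableEq C] {a b : C}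

theorem grow_box {d L : ℕ} (hd : 0 < d) {i0 i1 : Fin d} (h01 : i0 ≠ i1) (hL : 2 ≤ L)
    (hab : a ≠ b) (v p : Fin d → Fin L) :
    mm (box d L) a b v p ≤ (Fintype.card C * 2 ^ (2 * d)) ^ 7
      * sqn (box d L) a b v (sq i0 i1) (bs h01 hL p) := by
  have hs := side_ne (level_step v)
  have h := grow_path (a := a) (b := b) (K := Fintype.card C * 2 ^ (2 * d)) hs hab
    (fun x => Nat.mul_le_mul_left _ (Nat.pow_le_pow_right (by norm_num) (box_degree hd L x))) v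
    (pw i0 i1 hL p) 7 (pw_step h01 hL p)
  refine h.trans (Nat.mul_le_mul_left _ ?_)
  unfold sqn
  apply num_mono
  rintro σ _ ⟨h1, h2⟩
  refine ⟨h1, fun i => h2 _ ?_⟩
  rw [sq_pw h01]
  apply mem_image_of_mem
  rw [mem_range]
  have := i.2
  omega

theorem ineq_box {d L : ℕ} (hd : 2 ≤ d) (hL : 2 ≤ L) (hq : 2 * d ≤ Fintype.card C)
    (hab : a ≠ b) (v : Fin d → Fin L) (n : ℕ) :
    TT (box d L) a b v (fun x => l1 x v) (n + 5)
      ≤ 9 * (Fintype.card C * 2 ^ (2 * d)) ^ 7 * SS (box d L) a b v (fun x => l1 x v) n := by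
  classical
  have h01 : (⟨0, by omega⟩ : Fin d) ≠ ⟨1, by omega⟩ := by
    intro h
    have := congrArg Fin.val h
    simp at this
  apply ineq_squares (squares_box h01) hab (level_step v) (l1_self v)
    (fun x => (box_degree (by omega) L x).trans hq) (bs h01 hL)
  · intro p i
    have h1 := bs_near h01 hL p i
    have h2 := l1_tri p (sq _ _ (bs h01 hL p) i) v
    omega
  · intro β
    exact bs_mult h01 hL β
  · intro p
    exact grow_box (by omega) h01 hL hab v p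

end

end Pool.Agent.H23K
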