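import Pool.Agent.H23K.Grow

/-!
Exponential decay of the sums of the two-point function.
-/

set_option autoImplicit false
set_option linter.unusedSectionVars false

open Finset

namespace Pool.Agent.H23K

section
variable {V C : Type} [Fintype V] [DecidableEq V] [Fintype C] [DecidableEq C]
variable {G : SimpleGraph V} {a b : C}

/-! ### the correlation -/

theorem num_colour (v : V) (c : C) :
    num G (fun σ => σ v = c) = num G (fun σ => σ v = a) := by
  rw [num_perm (Equiv.swap a c)]
  apply num_congr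
  intro σ _
  show Equiv.swap a c (σ v) = c ↔ σ v = a
  constructor
  · intro h
    have := congrArg (Equiv.swap a c) h
    rwa [Equiv.swap_apply_self, Equiv.swap_apply_right] at this
  · intro h
    rw [h, Equiv.swap_apply_left]

theorem num_total (v : V) :
    num G (fun _ : V → C => True) = Fintype.card C * num G (fun σ => σ v = a) := by
  rw [num_fiber _ v]
  have : ∀ c ∈ (univ : Finset C), num G (fun σ : V → C => True ∧ σ v = c)
      = num G (fun σ => σ v = a) := by
    intro c _
    rw [← num_colour (a := a) v c]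
    apply num_congr
    intro σ _
    simp
  rw [sum_congr rfl this, sum_const, card_univ, smul_eq_mul]

theorem num_equal (v u : V) :
    num G (fun σ : V → C => σ u = σ v) = Fintype.card C * num G (fun σ => σ v = a ∧ σ u = a) := by
  rw [num_fiber _ v]
  have : ∀ c ∈ (univ : Finset C), num G (fun σ : V → C => σ u = σ v ∧ σ v = c)
      = num G (fun σ => σ v = a ∧ σ u = a) := by
    intro c _
    rw [num_perm (Equiv.swap a c)]
    apply num_congr
    intro σ _
    show (Equiv.swap a c (σ u) = Equiv.swap a c (σ v) ∧ Equiv.swap a c (σ v) = c) ↔ _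
    constructor
    · rintro ⟨h1, h2⟩
      have h3 : σ v = a := by
        have := congrArg (Equiv.swap a c) h2
        rwa [Equiv.swap_apply_self, Equiv.swap_apply_right] at this
      exact ⟨h3, ((Equiv.swap a c).injective h1).trans h3⟩
    · rintro ⟨h1, h2⟩
      rw [h1, h2]
      exact ⟨rfl, Equiv.swap_apply_left _ _⟩
  rw [sum_congr rfl this, sum_const, card_univ, smul_eq_mul]

theorem num_third (hab : a ≠ b) (v u : V) {c : C} (hc : c ≠ a) :
    num G (fun σ => σ v = a ∧ σ u = c) = num G (fun σ => σ v = a ∧ σ u = b) := by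
  rw [num_perm (Equiv.swap b c)]
  apply num_congr
  intro σ _
  show (Equiv.swap b c (σ v) = a ∧ Equiv.swap b c (σ u) = c) ↔ _
  have ha : Equiv.swap b c a = a := Equiv.swap_apply_of_ne_of_ne hab hc.symm
  constructor
  · rintro ⟨h1, h2⟩
    constructor
    · exact (Equiv.swap b c).injective (h1.trans ha.symm)
    · have := congrArg (Equiv.swap b c) h2
      rwa [Equiv.swap_apply_self, Equiv.swap_apply_right] at this
  · rintro ⟨h1, h2⟩
    rw [h1, h2]
    exact ⟨ha, Equiv.swap_apply_left _ _⟩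

theorem num_row (hab : a ≠ b) (v u : V) :
    num G (fun σ => σ v = a) + num G (fun σ => σ v = a ∧ σ u = b)
      = num G (fun σ => σ v = a ∧ σ u = a) + Fintype.card C * num G (fun σ => σ v = a ∧ σ u = b) := by
  rw [num_fiber (fun σ => σ v = a) u, ← add_sum_erase univ _ (mem_univ a)]
  have h1 : ∑ c ∈ univ.erase a, num G (fun σ => σ v = a ∧ σ u = c)
      = (univ.erase a).card * num G (fun σ => σ v = a ∧ σ u = b) := by
    rw [← smul_eq_mul, ← sum_const]
    exact sum_congr rfl fun c hc => num_third hab v u (mem_erase.1 hc).1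
  have h2 : (univ.erase a).card + 1 = Fintype.card C := by
    rw [card_erase_of_mem (mem_univ a), card_univ]
    have : 0 < Fintype.card C := Fintype.card_pos_iff.2 ⟨a⟩
    omega
  rw [h1, ← h2]
  ring

/-- the correlation of the colours of `u` and `v` -/
noncomputable def corr (G : SimpleGraph V) (C : Type) [Fintype C] [DecidableEq C] (u v : V) : ℝ :=
  (num G (fun σ : V → C => σ u = σ v) : ℝ) / num G (fun _ : V → C => True)
    - 1 / Fintype.card C

/-- the correlation is the probability of being in the same cluster, up to the sign -/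
theorem corr_eq {s : V → Bool} (hs : ∀ x y, G.Adj x y → s x ≠ s y) (hab : a ≠ b)
    (v u : V) (hN : 0 < num G (fun σ : V → C => σ v = a)) :
    |corr G C u v| = (1 - 1 / (Fintype.card C : ℝ))
      * (mm G a b v u / num G (fun σ : V → C => σ v = a)) := by
  have hq : 0 < Fintype.card C := Fintype.card_pos_iff.2 ⟨a⟩
  have hq1 : (1 : ℝ) ≤ Fintype.card C := by exact_mod_cast hq
  have h1 := num_total (G := G) (a := a) v
  have h2 := num_equal (G := G) (a := a) v u
  have h3 := num_row (G := G) hab v u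
  set N := num G (fun σ : V → C => σ v = a) with hNdef
  set X := num G (fun σ : V → C => σ v = a ∧ σ u = a) with hX
  set Y := num G (fun σ : V → C => σ v = a ∧ σ u = b) with hY
  set q := Fintype.card C with hqdef
  set m := mm G a b v u with hm
  have hNr : (0 : ℝ) < N := by exact_mod_cast hN
  have hqr : (0 : ℝ) < q := by exact_mod_cast hq
  have h3r : (N : ℝ) + Y = X + q * Y := by exact_mod_cast h3
  have hXY : |(X : ℝ) - Y| = m := by
    by_cases hu : s u = s v
    · have h4 := two_same (G := G) hs hab v u hu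
      rw [← hX, ← hY, ← hm] at h4
      have h4r : (X : ℝ) = m + Y := by exact_mod_cast h4
      rw [h4r, add_sub_cancel_right]
      exact abs_of_nonneg (Nat.cast_nonneg _)
    · have h4 := two_diff (G := G) hs hab v u hu
      rw [← hX, ← hY, ← hm] at h4
      have h4r : (Y : ℝ) = m + X := by exact_mod_cast h4
      rw [h4r]
      have : (X : ℝ) - (m + X) = -m := by ring
      rw [this, abs_neg]
      exact abs_of_nonneg (Nat.cast_nonneg _)
  unfold corr
  rw [h1, h2]
  have h5 : ((q * X : ℕ) : ℝ) / ((q * N : ℕ) : ℝ) - 1 / q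
      = (1 - 1 / (q : ℝ)) * (((X : ℝ) - Y) / N) := by
    push_cast
    field_simp
    linear_combination (-1 : ℝ) * h3r
  rw [h5, abs_mul, abs_div, hXY, abs_of_pos hNr, abs_of_nonneg]
  rw [sub_nonneg, div_le_one hqr]
  exact hq1

theorem mm_le (v u : V) : mm G a b v u ≤ num G (fun σ : V → C => σ v = a) :=
  num_mono fun _ _ h => h.1

theorem mm_self (v : V) : mm G a b v v = num G (fun σ : V → C => σ v = a) :=
  num_congr fun _ _ => ⟨fun h => h.1, fun h => ⟨h, Rch.refl v⟩⟩

/-! ### sums over levels -/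

open Classical in
/-- sum over the vertices at height at least `n` -/
noncomputable def TT (G : SimpleGraph V) (a b : C) (v : V) (ℓ : V → ℕ) (n : ℕ) : ℕ :=
  ∑ u ∈ univ.filter (fun u => n ≤ ℓ u), mm G a b v u

open Classical in
/-- sum over the vertices at height `n` -/
noncomputable def SS (G : SimpleGraph V) (a b : C) (v : V) (ℓ : V → ℕ) (n : ℕ) : ℕ :=
  ∑ u ∈ univ.filter (fun u => ℓ u + 1 = n + 1), mm G a b v u

theorem TT_eq (v : V) (ℓ : V → ℕ) (n : ℕ) :
    TT G a b v ℓ n = SS G a b v ℓ n + TT G a b v ℓ (n + 1) := by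
  classical
  unfold TT SS
  rw [sum_filter, sum_filter, sum_filter, ← sum_add_distrib]
  apply sum_congr rfl
  intro u _
  rcases lt_trichotomy (ℓ u) n with h | h | h
  · rw [if_neg (by omega), if_neg (by omega), if_neg (by omega), add_zero]
  · rw [if_pos (by omega), if_pos (by omega), if_neg (by omega), add_zero]
  · rw [if_pos (by omega), if_neg (by omega), if_pos (by omega), zero_add]

theorem TT_anti (v : V) (ℓ : V → ℕ) {i j : ℕ} (h : i ≤ j) :
    TT G a b v ℓ j ≤ TT G a b v ℓ i := by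
  classical
  unfold TT
  apply sum_le_sum_of_subset
  intro u hu
  rw [mem_filter] at *
  exact ⟨hu.1, h.trans hu.2⟩

theorem mm_le_TT (v u : V) (ℓ : V → ℕ) : mm G a b v u ≤ TT G a b v ℓ (ℓ u) := by
  classical
  unfold TT
  exact single_le_sum (f := fun u => mm G a b v u) (fun _ _ => Nat.zero_le _)
    (mem_filter.2 ⟨mem_univ u, le_refl _⟩)

theorem SS_zero {v : V} {ℓ : V → ℕ} (h : ∀ u, ℓ u = 0 → u = v) :
    SS G a b v ℓ 0 ≤ num G (fun σ : V → C => σ v = a) := by
  classical
  unfold SS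
  calc ∑ u ∈ univ.filter (fun u => ℓ u + 1 = 0 + 1), mm G a b v u
      ≤ ∑ u ∈ {v}, mm G a b v u := by
        apply sum_le_sum_of_subset
        intro u hu
        rw [mem_filter] at hu
        rw [mem_singleton]
        exact h u (by omega)
    _ = mm G a b v v := sum_singleton _ _
    _ ≤ _ := mm_le v v

theorem upn_le {ℓ : V → ℕ} (hℓ : ∀ x y, G.Adj x y → ℓ x = ℓ y + 1 ∨ ℓ y = ℓ x + 1) (x : V) :
    upn G ℓ x ≤ dgr G x := by
  have := dn_up hℓ x
  omega

theorem squares_empty (G : SimpleGraph V) : Squares G Empty (fun e _ => e.elim) where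
  adj := fun β => β.elim
  ne := fun β => β.elim
  disj := fun β => β.elim

open Classical in
/-- the inequality without squares -/
theorem ineq_plain (hab : a ≠ b)
    {ℓ : V → ℕ} (hℓ : ∀ x y, G.Adj x y → ℓ x = ℓ y + 1 ∨ ℓ y = ℓ x + 1)
    {v : V} (hv : ℓ v = 0) {D : ℕ} (hD : ∀ x, dgr G x ≤ D) {D' n : ℕ}
    (hD' : ∀ x, ℓ x = n → upn G ℓ x ≤ D') :
    Fintype.card C * TT G a b v ℓ (n + 1) ≤ D * TT G a b v ℓ (n + 1) + D' * SS G a b v ℓ n := by
  have h := main_ineq (C := C) (a := a) (b := b) (squares_empty G) hab hℓ (n := n + 1) (v := v)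
    (by omega)
  refine le_trans (Nat.le_add_right _ _) (h.trans ?_)
  unfold TT SS
  rw [mul_sum, mul_sum]
  apply add_le_add
  · exact sum_le_sum fun u _ => Nat.mul_le_mul_right _ (hD u)
  · apply sum_le_sum
    intro u hu
    rw [mem_filter] at hu
    exact Nat.mul_le_mul_right _ (hD' u (by omega))

open Classical in
/-- the inequality with squares, `q ≥ D` -/
theorem ineq_squares {ι : Type} [Fintype ι] [DecidableEq ι] {q : ι → Fin 4 → V}
    (hq : Squares G ι q) (hab : a ≠ b)
    {ℓ : V → ℕ} (hℓ : ∀ x y, G.Adj x y → ℓ x = ℓ y + 1 ∨ ℓ y = ℓ x + 1)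
    {v : V} (hv : ℓ v = 0) (hD : ∀ x, dgr G x ≤ Fintype.card C)
    (base : V → ι) (hbase : ∀ p i, ℓ p ≤ ℓ (q (base p) i) + 4)
    {m Kc : ℕ} (hm : ∀ β, (univ.filter (fun p => base p = β)).card ≤ m)
    (hg : ∀ p, mm G a b v p ≤ Kc * sqn G a b v q (base p)) (n : ℕ) :
    TT G a b v ℓ (n + 5) ≤ m * Kc * SS G a b v ℓ n := by
  have hC : 0 < Fintype.card C := Fintype.card_pos_iff.2 ⟨a⟩
  set QQ := univ.filter (fun β => ∀ i, n + 1 ≤ ℓ (q β i)) with hQQ
  have h := main_ineq (C := C) (a := a) (b := b) hq hab hℓ (n := n + 1) (v := v) (by omega)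
  have h1 : ∑ β ∈ QQ, sqn G a b v q β ≤ SS G a b v ℓ n := by
    have h2 : ∑ u ∈ univ.filter (fun u => n + 1 ≤ ℓ u), dgr G u * mm G a b v u
        ≤ Fintype.card C * (∑ u ∈ univ.filter (fun u => n + 1 ≤ ℓ u), mm G a b v u) := by
      rw [mul_sum]
      exact sum_le_sum fun u _ => Nat.mul_le_mul_right _ (hD u)
    have h3 : ∑ u ∈ univ.filter (fun u => ℓ u + 1 = n + 1), upn G ℓ u * mm G a b v u
        ≤ Fintype.card C * SS G a b v ℓ n := by
      unfold SS
      rw [mul_sum]
      exact sum_le_sum fun u _ => Nat.mul_le_mul_right _ ((upn_le hℓ u).trans (hD u))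
    have h4 : Fintype.card C * (∑ β ∈ QQ, sqn G a b v q β) ≤ Fintype.card C * SS G a b v ℓ n := by
      have h10 := h.trans (add_le_add h2 h3)
      convert Nat.le_of_add_le_add_left h10 using 2
    exact Nat.le_of_mul_le_mul_left h4 hC
  have h5 : TT G a b v ℓ (n + 5)
      ≤ ∑ p ∈ univ.filter (fun p => n + 5 ≤ ℓ p), Kc * sqn G a b v q (base p) := by
    unfold TT
    exact sum_le_sum fun p _ => hg p
  have h6 : ∑ p ∈ univ.filter (fun p => n + 5 ≤ ℓ p), Kc * sqn G a b v q (base p)
      = ∑ β ∈ QQ, ∑ p ∈ (univ.filter (fun p => n + 5 ≤ ℓ p)).filter (fun p => base p = β),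
        Kc * sqn G a b v q (base p) := by
    rw [sum_fiberwise_of_maps_to]
    intro p hp
    rw [mem_filter] at hp
    rw [hQQ, mem_filter]
    refine ⟨mem_univ _, fun i => ?_⟩
    have := hbase p i
    omega
  rw [h6] at h5
  refine h5.trans ?_
  have h7 : ∀ β ∈ QQ, ∑ p ∈ (univ.filter (fun p => n + 5 ≤ ℓ p)).filter (fun p => base p = β),
        Kc * sqn G a b v q (base p) ≤ m * Kc * sqn G a b v q β := by
    intro β _
    have h8 : ∀ p ∈ (univ.filter (fun p => n + 5 ≤ ℓ p)).filter (fun p => base p = β),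
        Kc * sqn G a b v q (base p) = Kc * sqn G a b v q β := by
      intro p hp
      rw [mem_filter] at hp
      rw [hp.2]
    rw [sum_congr rfl h8, sum_const, smul_eq_mul, mul_assoc]
    apply Nat.mul_le_mul_right
    refine le_trans (card_le_card ?_) (hm β)
    intro p hp
    rw [mem_filter] at hp
    exact mem_filter.2 ⟨mem_univ _, hp.2⟩
  refine (sum_le_sum h7).trans ?_
  rw [← mul_sum]
  exact Nat.mul_le_mul_left _ h1

end

/-! ### numerical part -/

theorem numeric (κ : ℝ) (hκ : 1 ≤ κ) : ∃ C ρ : ℝ, 0 < C ∧ 0 < ρ ∧ ρ < 1 ∧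
    ∀ (T : ℕ → ℝ) (N x : ℝ) (L : ℕ), 0 ≤ N → (∀ i j, i ≤ j → T j ≤ T i) →
      (∀ j, (1 + κ) * T (j + 5) ≤ κ * T j) → T 5 ≤ κ * N → x ≤ N → x ≤ T L →
      x ≤ N * (C * ρ ^ L) := by
  set r : ℝ := κ / (1 + κ) with hr
  have hκ0 : 0 < κ := by linarith
  have hr0 : 0 < r := by positivity
  have hr1 : r < 1 := by rw [hr, div_lt_one (by linarith)]; linarith
  set ρ : ℝ := r ^ ((1 : ℝ) / 5) with hρ
  have hρ0 : 0 < ρ := Real.rpow_pos_of_pos hr0 _
  have hρ1 : ρ < 1 := Real.rpow_lt_one hr0.le hr1 (by norm_num)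
  have hρ5 : ρ ^ 5 = r := by
    rw [hρ, ← Real.rpow_natCast, ← Real.rpow_mul hr0.le]
    norm_num
  refine ⟨κ / r ^ 2, ρ, by positivity, hρ0, hρ1, ?_⟩
  intro T N x L hN hanti hT hT5 hxN hxT
  have hstep : ∀ k, T (5 * (k + 1)) ≤ r ^ k * (κ * N) := by
    intro k
    induction k with
    | zero => simpa using hT5
    | succ k ih =>
      have h1 := hT (5 * (k + 1))
      have h2 : T (5 * (k + 1) + 5) ≤ r * T (5 * (k + 1)) := by
        rw [hr, div_mul_eq_mul_div, le_div_iff₀ (by linarith)]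
        linarith
      have e : 5 * (k + 1 + 1) = 5 * (k + 1) + 5 := by ring
      rw [e, pow_succ]
      calc T (5 * (k + 1) + 5) ≤ r * T (5 * (k + 1)) := h2
        _ ≤ r * (r ^ k * (κ * N)) := mul_le_mul_of_nonneg_left ih hr0.le
        _ = r ^ k * r * (κ * N) := by ring
  -- lower bound for the power
  have hpow : ∀ k, L ≤ 5 * (k + 2) → r ^ k ≤ ρ ^ L / r ^ 2 := by
    intro k hk
    rw [le_div_iff₀ (by positivity), ← pow_add, ← hρ5, ← pow_mul]
    exact pow_le_pow_of_le_one hρ0.le hρ1.le hk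
  rcases Nat.lt_or_ge L 5 with hL | hL
  · have h1 := hpow 0 (by omega)
    rw [pow_zero] at h1
    have h2 : (1 : ℝ) ≤ κ / r ^ 2 * ρ ^ L := by
      calc (1 : ℝ) = 1 * 1 := by ring
        _ ≤ κ * (ρ ^ L / r ^ 2) := mul_le_mul hκ h1 (by norm_num) (by linarith)
        _ = _ := by ring
    calc x ≤ N * 1 := by linarith
      _ ≤ _ := mul_le_mul_of_nonneg_left h2 hN
  · obtain ⟨k, hk⟩ : ∃ k, L / 5 = k + 1 := ⟨L / 5 - 1, by omega⟩
    have h1 := hstep k
    have h2 := hanti (5 * (k + 1)) L (by omega)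
    have h3 := hpow k (by omega)
    have h4 : r ^ k * (κ * N) ≤ ρ ^ L / r ^ 2 * (κ * N) :=
      mul_le_mul_of_nonneg_right h3 (by positivity)
    calc x ≤ T L := hxT
      _ ≤ T (5 * (k + 1)) := h2
      _ ≤ r ^ k * (κ * N) := h1
      _ ≤ ρ ^ L / r ^ 2 * (κ * N) := h4
      _ = _ := by ring

end Pool.Agent.H23K
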