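import Pool.Agent.H23K.Ident

/-!
The cluster is connected: it has at least as many edges meeting a set of vertices without the root
as vertices in this set, and one more for every disjoint four-cycle.
-/

set_option autoImplicit false
set_option linter.unusedSectionVars false

open Finset

namespace Pool.Agent.H23K

section
variable {V C : Type} [Fintype V] [DecidableEq V] [Fintype C] [DecidableEq C]
variable {G : SimpleGraph V} {a b : C}

/-- parity of the length of a walk -/
theorem walk_parity {ℓ : V → ℕ} (hℓ : ∀ x y, G.Adj x y → ℓ x = ℓ y + 1 ∨ ℓ y = ℓ x + 1)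
    {σ : V → C} {x y : V} (p : (two G a b σ).Walk x y) : (ℓ x + ℓ y + p.length) % 2 = 0 := by
  induction p with
  | nil => simp; omega
  | @cons x z y h p ih =>
    rw [SimpleGraph.Walk.length_cons]
    rcases hℓ x z h.1 with h1 | h1 <;> omega

theorem dist_parity {ℓ : V → ℕ} (hℓ : ∀ x y, G.Adj x y → ℓ x = ℓ y + 1 ∨ ℓ y = ℓ x + 1)
    {σ : V → C} {x y : V} (h : Rch G a b σ x y) :
    (ℓ x + ℓ y + (two G a b σ).dist x y) % 2 = 0 := by
  obtain ⟨p, hp⟩ := SimpleGraph.Reachable.exists_walk_length_eq_dist h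
  rw [← hp]
  exact walk_parity hℓ p

/-- the parent of a vertex of the cluster -/
theorem exists_parent {σ : V → C} {v u : V} (h : Rch G a b σ v u) (huv : u ≠ v) :
    ∃ y, (two G a b σ).Adj u y ∧ Rch G a b σ v y ∧
      (two G a b σ).dist v y + 1 = (two G a b σ).dist v u := by
  have h' : (two G a b σ).Reachable u v := SimpleGraph.Reachable.symm h
  obtain ⟨p, hp⟩ := SimpleGraph.Reachable.exists_walk_length_eq_dist h'
  cases p with
  | nil => exact absurd rfl huv
  | @cons _ y _ hadj p' =>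
    have hr : Rch G a b σ v y := SimpleGraph.Reachable.symm ⟨p'⟩
    refine ⟨y, hadj, hr, ?_⟩
    rw [SimpleGraph.Walk.length_cons] at hp
    have h1 : (two G a b σ).dist y v ≤ p'.length := SimpleGraph.dist_le p'
    obtain ⟨p2, hp2⟩ := SimpleGraph.Reachable.exists_walk_length_eq_dist
      (SimpleGraph.Reachable.symm hr)
    have h2 : (two G a b σ).dist u v ≤ (SimpleGraph.Walk.cons hadj p2).length :=
      SimpleGraph.dist_le _
    rw [SimpleGraph.Walk.length_cons] at h2
    rw [SimpleGraph.dist_comm (u := v) (v := y), SimpleGraph.dist_comm (u := v) (v := u)]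
    omega

/-- orient an edge downwards -/
def orient (ℓ : V → ℕ) (x y : V) : V × V := if ℓ y < ℓ x then (x, y) else (y, x)

theorem orient_mem {ℓ : V → ℕ} {x y x' y' : V} (h : orient ℓ x y = orient ℓ x' y') :
    (x = x' ∧ y = y') ∨ (x = y' ∧ y = x') := by
  unfold orient at h
  split_ifs at h with h1 h2 h2 <;>
    simp only [Prod.mk.injEq] at h <;> tauto

open Classical in
/-- pairs of adjacent vertices, the first one above the second one, and at height at least `n` -/
noncomputable def pairs (G : SimpleGraph V) (ℓ : V → ℕ) (n : ℕ) : Finset (V × V) :=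
  univ.filter (fun e => G.Adj e.1 e.2 ∧ ℓ e.1 = ℓ e.2 + 1 ∧ n ≤ ℓ e.1)

open Classical in
theorem orient_pairs {ℓ : V → ℕ} (hℓ : ∀ x y, G.Adj x y → ℓ x = ℓ y + 1 ∨ ℓ y = ℓ x + 1)
    {n : ℕ} {x y : V} (h : G.Adj x y) (hx : n ≤ ℓ x) : orient ℓ x y ∈ pairs G ℓ n := by
  unfold orient pairs
  rw [mem_filter]
  rcases hℓ x y h with h1 | h1
  · rw [if_pos (by omega)]
    exact ⟨mem_univ _, h, h1, hx⟩
  · rw [if_neg (by omega)]
    exact ⟨mem_univ _, h.symm, h1, by simp only; omega⟩

/-- a family of vertex disjoint four-cycles -/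
structure Squares (G : SimpleGraph V) (ι : Type) (q : ι → Fin 4 → V) : Prop where
  adj : ∀ β i, G.Adj (q β i) (q β (i + 1))
  ne : ∀ β i, q β i ≠ q β (i + 2)
  disj : ∀ β β' i j, q β i = q β' j → β = β'

open Classical in
/-- the counting inequality for one colouring -/
theorem count_one {ι : Type} [Fintype ι] {q : ι → Fin 4 → V} (hq : Squares G ι q)
    {ℓ : V → ℕ} (hℓ : ∀ x y, G.Adj x y → ℓ x = ℓ y + 1 ∨ ℓ y = ℓ x + 1)
    {n : ℕ} {v : V} (hv : ℓ v < n) {σ : V → C} (hσ : σ v = a ∨ σ v = b) :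
    (univ.filter (fun u => n ≤ ℓ u ∧ Rch G a b σ v u)).card
      + (univ.filter (fun β => ∀ i, n ≤ ℓ (q β i) ∧ Rch G a b σ v (q β i))).card
      ≤ ((pairs G ℓ n).filter (fun e => Rch G a b σ v e.1 ∧ Rch G a b σ v e.2)).card := by
  set KU := univ.filter (fun u => n ≤ ℓ u ∧ Rch G a b σ v u) with hKU
  set QQ := univ.filter (fun β => ∀ i, n ≤ ℓ (q β i) ∧ Rch G a b σ v (q β i)) with hQQ
  set EE := (pairs G ℓ n).filter (fun e => Rch G a b σ v e.1 ∧ Rch G a b σ v e.2) with hEE
  set δ : V → ℕ := fun u => (two G a b σ).dist v u with hδ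
  have hpar : ∀ u, ∃ y, u ∈ KU → ((two G a b σ).Adj u y ∧ Rch G a b σ v y ∧ δ y + 1 = δ u) := by
    intro u
    by_cases hu : u ∈ KU
    · have hu' := hu
      rw [hKU, mem_filter] at hu'
      have huv : u ≠ v := by rintro rfl; omega
      obtain ⟨y, h1, h2, h3⟩ := exists_parent hu'.2.2 huv
      exact ⟨y, fun _ => ⟨h1, h2, h3⟩⟩
    · exact ⟨u, fun h => absurd h hu⟩
  choose par hpar using hpar
  set φ : V → V × V := fun u => orient ℓ u (par u) with hφ
  have hmemEE : ∀ x y, G.Adj x y → n ≤ ℓ x → Rch G a b σ v x → Rch G a b σ v y →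
      orient ℓ x y ∈ EE := by
    intro x y h1 h2 h3 h4
    rw [hEE, mem_filter]
    refine ⟨orient_pairs hℓ h1 h2, ?_⟩
    unfold orient
    split_ifs
    · exact ⟨h3, h4⟩
    · exact ⟨h4, h3⟩
  have hφE : ∀ u ∈ KU, φ u ∈ EE := by
    intro u hu
    have h := hpar u hu
    rw [hKU, mem_filter] at hu
    exact hmemEE u (par u) h.1.1 hu.2.1 hu.2.2 h.2.1
  have hφi : Set.InjOn φ KU := by
    intro u hu u' hu' h
    rw [mem_coe] at hu hu'
    rcases orient_mem h with ⟨h1, _⟩ | ⟨h1, h2⟩
    · exact h1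
    · have e1 := (hpar u hu).2.2
      have e2 := (hpar u' hu').2.2
      rw [h2] at e1
      rw [← h1] at e2
      omega
  -- a missing edge in every square
  have hmiss : ∀ β, ∃ e : V × V, β ∈ QQ → (e ∈ EE ∧ e ∉ KU.image φ ∧ ∃ i, e.1 = q β i) := by
    intro β
    by_cases hβ : β ∈ QQ
    · rw [hQQ, mem_filter] at hβ
      have hβ := hβ.2
      obtain ⟨i, -, hi⟩ := exists_max_image (univ : Finset (Fin 4)) (fun i => δ (q β i))
        ⟨0, mem_univ 0⟩
      set x := q β i with hx
      set y := q β (i + 1) with hy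
      set z := q β (i + 3) with hz
      have hxy : G.Adj x y := hq.adj β i
      have hzx : G.Adj z x := by
        have := hq.adj β (i + 3)
        have e : i + 3 + 1 = i := by
          rw [add_assoc]
          have : (3 : Fin 4) + 1 = 0 := by decide
          rw [this, add_zero]
        rw [e] at this
        exact this
      have hyz : y ≠ z := by
        have := hq.ne β (i + 1)
        have e : i + 1 + 2 = i + 3 := by
          rw [add_assoc]; rfl
        rw [e] at this
        exact this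
      -- adjacent vertices of the cluster have different distances
      have hdne : ∀ p r, G.Adj p r → Rch G a b σ v p → Rch G a b σ v r → δ p ≠ δ r := by
        intro p r hpr hp hr h
        have e1 := dist_parity hℓ hp
        have e2 := dist_parity hℓ hr
        have h' : (two G a b σ).dist v p = (two G a b σ).dist v r := h
        rcases hℓ p r hpr with h3 | h3 <;> omega
      have hparent : ∀ r, G.Adj x r → Rch G a b σ v r → δ r ≤ δ x →
          orient ℓ x r ∈ KU.image φ → par x = r := by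
        intro r hxr hr hle hmem
        rw [mem_image] at hmem
        obtain ⟨u, hu, hu2⟩ := hmem
        rcases orient_mem hu2 with ⟨h1, h2⟩ | ⟨h1, h2⟩
        · rw [← h1]; exact h2
        · exfalso
          have e1 := (hpar u hu).2.2
          rw [h2, h1] at e1
          omega
      by_cases hA : orient ℓ x y ∈ KU.image φ
      · by_cases hB : orient ℓ x z ∈ KU.image φ
        · exfalso
          have e1 := hparent y hxy (hβ (i + 1)).2 (hi _ (mem_univ _)) hA
          have e2 := hparent z hzx.symm (hβ (i + 3)).2 (hi _ (mem_univ _)) hB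
          exact hyz (e1.symm.trans e2)
        · refine ⟨orient ℓ x z, fun _ => ⟨hmemEE x z hzx.symm (hβ i).1 (hβ i).2 (hβ (i + 3)).2,
            hB, ?_⟩⟩
          unfold orient
          split_ifs
          · exact ⟨i, rfl⟩
          · exact ⟨i + 3, rfl⟩
      · refine ⟨orient ℓ x y, fun _ => ⟨hmemEE x y hxy (hβ i).1 (hβ i).2 (hβ (i + 1)).2, hA, ?_⟩⟩
        unfold orient
        split_ifs
        · exact ⟨i, rfl⟩
        · exact ⟨i + 1, rfl⟩
    · exact ⟨(v, v), fun h => absurd h hβ⟩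
  choose ψ hψ using hmiss
  have hψi : Set.InjOn ψ QQ := by
    intro β hβ β' hβ' h
    rw [mem_coe] at hβ hβ'
    obtain ⟨-, -, i, hi⟩ := hψ β hβ
    obtain ⟨-, -, j, hj⟩ := hψ β' hβ'
    rw [h] at hi
    exact hq.disj β β' i j (hi.symm.trans hj)
  have hdisj : Disjoint (KU.image φ) (QQ.image ψ) := by
    rw [disjoint_left]
    intro e he he'
    rw [mem_image] at he'
    obtain ⟨β, hβ, rfl⟩ := he'
    exact (hψ β hβ).2.1 he
  rw [← card_image_of_injOn hφi, ← card_image_of_injOn hψi, ← card_union_of_disjoint hdisj]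
  apply card_le_card
  intro e he
  rw [mem_union, mem_image, mem_image] at he
  rcases he with ⟨u, hu, rfl⟩ | ⟨β, hβ, rfl⟩
  · exact hφE u hu
  · exact (hψ β hβ).1

open Classical in
theorem num_eq_sum (P : (V → C) → Prop) :
    num G (fun σ => σ = σ ∧ P σ) = ∑ σ : V → C, if Proper G σ ∧ P σ then 1 else 0 := by
  unfold num
  rw [card_filter]
  apply sum_congr rfl
  intro σ _
  simp

open Classical in
theorem sum_num {ι : Type} (T : Finset ι) (v : V) (P : ι → (V → C) → Prop) :
    ∑ i ∈ T, num G (fun σ => σ v = a ∧ P i σ)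
      = ∑ σ ∈ univ.filter (fun σ : V → C => Proper G σ ∧ σ v = a), (T.filter (fun i => P i σ)).card := by
  unfold num
  simp_rw [card_filter]
  rw [sum_comm, sum_filter]
  apply sum_congr rfl
  intro σ _
  by_cases h : Proper G σ ∧ σ v = a
  · rw [if_pos h]
    apply sum_congr rfl
    intro i _
    by_cases h2 : P i σ
    · rw [if_pos h2, if_pos ⟨h.1, h.2, h2⟩]
    · rw [if_neg h2, if_neg (fun h3 => h2 h3.2.2)]
  · rw [if_neg h]
    apply sum_eq_zero
    intro i _
    rw [if_neg (fun h3 => h ⟨h3.1, h3.2.1⟩)]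

/-- the square is contained in the cluster -/
noncomputable def sqn (G : SimpleGraph V) (a b : C) (v : V) {ι : Type} (q : ι → Fin 4 → V) (β : ι) :
    ℕ := num G (fun σ => σ v = a ∧ ∀ i, Rch G a b σ v (q β i))

open Classical in
/-- the averaged inequality -/
theorem count_all {ι : Type} [Fintype ι] {q : ι → Fin 4 → V} (hq : Squares G ι q)
    {ℓ : V → ℕ} (hℓ : ∀ x y, G.Adj x y → ℓ x = ℓ y + 1 ∨ ℓ y = ℓ x + 1)
    {n : ℕ} {v : V} (hv : ℓ v < n) :
    ∑ u ∈ univ.filter (fun u => n ≤ ℓ u), mm G a b v u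
      + ∑ β ∈ univ.filter (fun β => ∀ i, n ≤ ℓ (q β i)), sqn G a b v q β
      ≤ ∑ e ∈ pairs G ℓ n, ee G a b v e.1 e.2 := by
  unfold mm sqn ee
  rw [sum_num, sum_num, sum_num, ← sum_add_distrib]
  apply sum_le_sum
  intro σ hσ
  rw [mem_filter] at hσ
  refine le_trans (le_of_eq ?_)
    ((count_one (a := a) (b := b) hq hℓ hv (Or.inl hσ.2.2)).trans (le_of_eq ?_))
  · congr 1
    · congr 1
      ext u
      simp only [mem_filter, mem_univ, true_and]
    · congr 1
      ext β
      simp only [mem_filter, mem_univ, true_and]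
      exact ⟨fun h i => ⟨h.1 i, h.2 i⟩, fun h => ⟨fun i => (h i).1, fun i => (h i).2⟩⟩
  · congr 1
    ext e
    simp only [mem_filter]

/-- the side of a vertex -/
def side (ℓ : V → ℕ) (x : V) : Bool := decide (ℓ x % 2 = 0)

theorem side_ne {ℓ : V → ℕ} (hℓ : ∀ x y, G.Adj x y → ℓ x = ℓ y + 1 ∨ ℓ y = ℓ x + 1)
    (x y : V) (h : G.Adj x y) : side ℓ x ≠ side ℓ y := by
  unfold side
  rcases hℓ x y h with h1 | h1 <;> rw [h1] <;> intro h2 <;> rw [decide_eq_decide] at h2 <;> omega

open Classical in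
/-- number of upper neighbours -/
noncomputable def upn (G : SimpleGraph V) (ℓ : V → ℕ) (y : V) : ℕ :=
  (univ.filter (fun x => G.Adj x y ∧ ℓ x = ℓ y + 1)).card

open Classical in
/-- number of lower neighbours -/
noncomputable def dnn (G : SimpleGraph V) (ℓ : V → ℕ) (x : V) : ℕ :=
  (univ.filter (fun y => G.Adj x y ∧ ℓ x = ℓ y + 1)).card

open Classical in
/-- degree -/
noncomputable def dgr (G : SimpleGraph V) (x : V) : ℕ := (univ.filter (fun y => G.Adj x y)).card

theorem dn_up {ℓ : V → ℕ} (hℓ : ∀ x y, G.Adj x y → ℓ x = ℓ y + 1 ∨ ℓ y = ℓ x + 1) (x : V) :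
    dnn G ℓ x + upn G ℓ x = dgr G x := by
  classical
  unfold dnn upn dgr
  rw [← card_filter_add_card_filter_not (s := univ.filter (fun y => G.Adj x y))
    (fun y => ℓ x = ℓ y + 1), filter_filter, filter_filter]
  congr 2
  ext y
  simp only [mem_filter, mem_univ, true_and]
  constructor
  · rintro ⟨h1, h2⟩
    exact ⟨h1.symm, by omega⟩
  · rintro ⟨h1, h2⟩
    rcases hℓ x y h1 with h3 | h3
    · exact absurd h3 h2
    · exact ⟨h1.symm, h3⟩

open Classical in
theorem sum_pairs_fst {ℓ : V → ℕ} {n : ℕ} (f : V → ℕ) :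
    ∑ e ∈ pairs G ℓ n, f e.1 = ∑ x ∈ univ.filter (fun x => n ≤ ℓ x), dnn G ℓ x * f x := by
  unfold pairs dnn
  rw [sum_filter, Fintype.sum_prod_type, sum_filter]
  apply sum_congr rfl
  intro x _
  by_cases hx : n ≤ ℓ x
  · rw [if_pos hx, card_filter, sum_mul]
    apply sum_congr rfl
    intro y _
    by_cases h : G.Adj x y ∧ ℓ x = ℓ y + 1
    · rw [if_pos ⟨h.1, h.2, hx⟩, if_pos h, one_mul]
    · rw [if_neg (fun h2 => h ⟨h2.1, h2.2.1⟩), if_neg h, zero_mul]
  · rw [if_neg hx]
    apply sum_eq_zero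
    intro y _
    rw [if_neg (fun h2 => hx h2.2.2)]

open Classical in
theorem sum_pairs_snd {ℓ : V → ℕ} {n : ℕ} (f : V → ℕ) :
    ∑ e ∈ pairs G ℓ n, f e.2 = ∑ y ∈ univ.filter (fun y => n ≤ ℓ y), upn G ℓ y * f y
      + ∑ y ∈ univ.filter (fun y => ℓ y + 1 = n), upn G ℓ y * f y := by
  unfold pairs upn
  rw [sum_filter, Fintype.sum_prod_type, sum_comm, sum_filter, sum_filter, ← sum_add_distrib]
  apply sum_congr rfl
  intro y _
  by_cases hy : n ≤ ℓ y + 1
  · have h1 : ∀ x, (if G.Adj x y ∧ ℓ x = ℓ y + 1 ∧ n ≤ ℓ x then f y else 0)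
        = (if G.Adj x y ∧ ℓ x = ℓ y + 1 then 1 else 0) * f y := by
      intro x
      by_cases h : G.Adj x y ∧ ℓ x = ℓ y + 1
      · rw [if_pos ⟨h.1, h.2, by omega⟩, if_pos h, one_mul]
      · rw [if_neg (fun h2 => h ⟨h2.1, h2.2.1⟩), if_neg h, zero_mul]
    have h2 : ∑ x : V, (if G.Adj (x, y).1 (x, y).2 ∧ ℓ (x, y).1 = ℓ (x, y).2 + 1 ∧ n ≤ ℓ (x, y).1
        then f (x, y).2 else 0) = (univ.filter (fun x => G.Adj x y ∧ ℓ x = ℓ y + 1)).card * f y := by
      rw [card_filter, sum_mul]
      exact sum_congr rfl fun x _ => h1 x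
    rw [h2]
    rcases Nat.lt_or_ge (ℓ y) n with h3 | h3
    · rw [if_neg (by omega), if_pos (by omega), zero_add]
    · rw [if_pos h3, if_neg (by omega), add_zero]
  · rw [if_neg (by omega), if_neg (by omega), add_zero]
    apply sum_eq_zero
    intro x _
    rw [if_neg (fun h2 => by simp only at h2; omega)]

open Classical in
/-- **The main inequality.** -/
theorem main_ineq {ι : Type} [Fintype ι] {q : ι → Fin 4 → V} (hq : Squares G ι q) (hab : a ≠ b)
    {ℓ : V → ℕ} (hℓ : ∀ x y, G.Adj x y → ℓ x = ℓ y + 1 ∨ ℓ y = ℓ x + 1)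
    {n : ℕ} {v : V} (hv : ℓ v < n) :
    Fintype.card C * (∑ u ∈ univ.filter (fun u => n ≤ ℓ u), mm G a b v u)
      + Fintype.card C * (∑ β ∈ univ.filter (fun β => ∀ i, n ≤ ℓ (q β i)), sqn G a b v q β)
      ≤ ∑ u ∈ univ.filter (fun u => n ≤ ℓ u), dgr G u * mm G a b v u
        + ∑ u ∈ univ.filter (fun u => ℓ u + 1 = n), upn G ℓ u * mm G a b v u := by
  have h1 := Nat.mul_le_mul_left (Fintype.card C) (count_all (a := a) (b := b) hq hℓ hv)
  rw [mul_add] at h1
  refine h1.trans (le_of_eq ?_)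
  rw [mul_sum]
  have h2 : ∑ e ∈ pairs G ℓ n, Fintype.card C * ee G a b v e.1 e.2
      = ∑ e ∈ pairs G ℓ n, mm G a b v e.1 + ∑ e ∈ pairs G ℓ n, mm G a b v e.2 := by
    rw [← sum_add_distrib]
    apply sum_congr rfl
    intro e he
    unfold pairs at he
    rw [mem_filter] at he
    exact (ident (side_ne hℓ) hab v e.1 e.2 he.2.1).symm
  rw [h2, sum_pairs_fst (fun x => mm G a b v x), sum_pairs_snd (fun x => mm G a b v x),
    ← add_assoc, ← sum_add_distrib]
  congr 1
  apply sum_congr rfl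
  intro x _
  rw [← add_mul, dn_up hℓ]

end

end Pool.Agent.H23K
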