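import Pool.Agent.H23K.Box

/-!
General bipartite graphs with `q ≥ Δ + 1`, and boxes with `q ≥ 2 d`.
-/

set_option autoImplicit false
set_option linter.unusedSectionVars false

open Finset

namespace Pool.Agent.H23K

section
variable {V C : Type} [Fintype V] [DecidableEq V] [Fintype C] [DecidableEq C]
variable {G : SimpleGraph V} {a b : C}

/-- a bipartite graph has a colouring -/
theorem num_pos {s : V → Bool} (hs : ∀ x y, G.Adj x y → s x ≠ s y) (hab : a ≠ b) (v : V) :
    0 < num G (fun σ : V → C => σ v = a) := by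
  unfold num
  rw [card_pos]
  refine ⟨pat a b s v, ?_⟩
  simp only [mem_filter, mem_univ, true_and]
  exact ⟨fun x y hxy => pat_ne hab v (hs x y hxy), pat_self s v⟩

theorem corr_le {s : V → Bool} (hs : ∀ x y, G.Adj x y → s x ≠ s y) (hab : a ≠ b)
    (v u : V) : |corr G C u v| ≤ mm G a b v u / num G (fun σ : V → C => σ v = a) := by
  rw [corr_eq hs hab v u (num_pos hs hab v)]
  have hq : 0 < Fintype.card C := Fintype.card_pos_iff.2 ⟨a⟩
  have h1 : (1 - 1 / (Fintype.card C : ℝ)) ≤ 1 := by
    have : 0 ≤ 1 / (Fintype.card C : ℝ) := by positivity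
    linarith
  have h2 : (0 : ℝ) ≤ mm G a b v u / num G (fun σ : V → C => σ v = a) := by positivity
  calc _ ≤ 1 * ((mm G a b v u : ℝ) / num G (fun σ : V → C => σ v = a)) :=
        mul_le_mul_of_nonneg_right h1 h2
    _ = _ := one_mul _

theorem corr_le_one {s : V → Bool} (hs : ∀ x y, G.Adj x y → s x ≠ s y) (hab : a ≠ b)
    (v u : V) : |corr G C u v| ≤ 1 := by
  refine (corr_le hs hab v u).trans ?_
  have h := num_pos (C := C) hs hab v
  rw [div_le_one (by exact_mod_cast h)]
  exact_mod_cast mm_le v u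

theorem side_walk {s : V → Bool} (hs : ∀ x y, G.Adj x y → s x ≠ s y) {x y : V} (p : G.Walk x y) :
    (s x = s y ↔ p.length % 2 = 0) := by
  induction p with
  | nil => simp
  | @cons x z y h p ih =>
    rw [SimpleGraph.Walk.length_cons]
    have h1 := hs x z h
    constructor
    · intro h2
      have h3 : s z ≠ s y := fun h4 => h1 (h2.trans h4.symm)
      rw [Ne, ih] at h3
      omega
    · intro h2
      have h3 : ¬ (s z = s y) := by rw [ih]; omega
      cases h4 : s x <;> cases h5 : s z <;> cases h6 : s y <;> simp_all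

theorem dist_step {s : V → Bool} (hs : ∀ x y, G.Adj x y → s x ≠ s y) (hG : G.Connected) (v : V)
    (x y : V) (h : G.Adj x y) :
    G.dist v x = G.dist v y + 1 ∨ G.dist v y = G.dist v x + 1 := by
  obtain ⟨p, hp⟩ := (hG.preconnected v x).exists_walk_length_eq_dist
  obtain ⟨r, hr⟩ := (hG.preconnected v y).exists_walk_length_eq_dist
  have h1 : G.dist v y ≤ G.dist v x + 1 := by
    have := SimpleGraph.dist_le (p.concat h)
    rw [SimpleGraph.Walk.length_concat, hp] at this
    exact this
  have h2 : G.dist v x ≤ G.dist v y + 1 := by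
    have := SimpleGraph.dist_le (r.concat h.symm)
    rw [SimpleGraph.Walk.length_concat, hr] at this
    exact this
  have h3 := side_walk hs p
  have h4 := side_walk hs r
  rw [hp] at h3
  rw [hr] at h4
  have h5 := hs x y h
  have h6 : G.dist v x ≠ G.dist v y := by
    intro h7
    rw [h7] at h3
    have : s v = s x ↔ s v = s y := h3.trans h4.symm
    cases e1 : s v <;> cases e2 : s x <;> cases e3 : s y <;> simp_all
  omega

theorem dn_pos {s : V → Bool} (hs : ∀ x y, G.Adj x y → s x ≠ s y) (hG : G.Connected) (v x : V)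
    (hx : 1 ≤ G.dist v x) : 1 ≤ dnn G (fun u => G.dist v u) x := by
  classical
  have hne : x ≠ v := by rintro rfl; simp at hx
  obtain ⟨p, hp⟩ := (hG.preconnected x v).exists_walk_length_eq_dist
  cases p with
  | nil => exact absurd rfl hne
  | @cons _ y _ hadj p' =>
    rw [SimpleGraph.Walk.length_cons] at hp
    have h1 : G.dist y v ≤ p'.length := SimpleGraph.dist_le p'
    have h2 : G.dist v y < G.dist v x := by
      rw [SimpleGraph.dist_comm (u := v) (v := y), SimpleGraph.dist_comm (u := v) (v := x)]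
      omega
    unfold dnn
    have : y ∈ univ.filter (fun y => G.Adj x y ∧ G.dist v x = G.dist v y + 1) := by
      rw [mem_filter]
      refine ⟨mem_univ _, hadj, ?_⟩
      rcases dist_step hs hG v x y hadj with h | h <;> omega
    exact card_pos.2 ⟨y, this⟩

open Classical in
/-- **General bipartite graphs.** -/
theorem general {s : V → Bool} (hs : ∀ x y, G.Adj x y → s x ≠ s y) (hG : G.Connected)
    {D : ℕ} (hD1 : 1 ≤ D) (hD : ∀ x, dgr G x ≤ D) (hq : D + 1 ≤ Fintype.card C) (v : V)
    (n : ℕ) :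
    ∑ u ∈ univ.filter (fun u => n + 1 ≤ G.dist v u), |corr G C u v|
      ≤ D / ((Fintype.card C : ℝ) - D) * (((D : ℝ) - 1) / ((Fintype.card C : ℝ) - 1)) ^ n := by
  have hcard : 2 ≤ Fintype.card C := by omega
  obtain ⟨a, b, hab⟩ := Fintype.one_lt_card_iff.1 (by omega : 1 < Fintype.card C)
  set ℓ : V → ℕ := fun u => G.dist v u with hℓdef
  have hℓ := dist_step hs hG v
  have hv : ℓ v = 0 := SimpleGraph.dist_self
  set N := num G (fun σ : V → C => σ v = a) with hN
  have hNpos : 0 < N := num_pos hs hab v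
  have hNr : (0 : ℝ) < N := by exact_mod_cast hNpos
  set q := Fintype.card C with hqdef
  have hDr : (1 : ℝ) ≤ D := by exact_mod_cast hD1
  have hqD : (D : ℝ) + 1 ≤ q := by exact_mod_cast hq
  have hqD0 : (0 : ℝ) < (q : ℝ) - D := by linarith
  have hq1 : (0 : ℝ) < (q : ℝ) - 1 := by linarith
  -- the recursion
  have hrec : ∀ n, (TT G a b v ℓ (n + 1) : ℝ)
      ≤ N * (D / ((q : ℝ) - D) * (((D : ℝ) - 1) / ((q : ℝ) - 1)) ^ n) := by
    intro n
    induction n with
    | zero =>
      have h1 := ineq_plain (C := C) (G := G) (v := v) hab hℓ hv hD (D' := D) (n := 0)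
        (fun x _ => (upn_le hℓ x).trans (hD x))
      have h2 : SS G a b v ℓ 0 ≤ N := SS_zero fun u hu => by
        have := (hG.preconnected v u).dist_eq_zero_iff.1 hu
        exact this.symm
      have h3 : q * TT G a b v ℓ 1 ≤ D * TT G a b v ℓ 1 + D * N :=
        h1.trans (Nat.add_le_add_left (Nat.mul_le_mul_left _ h2) _)
      have h4 : (q : ℝ) * TT G a b v ℓ 1 ≤ D * TT G a b v ℓ 1 + D * N := by exact_mod_cast h3
      rw [pow_zero, mul_one, zero_add, mul_div_assoc', le_div_iff₀ hqD0]
      linarith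
    | succ n ih =>
      have h1 := ineq_plain (C := C) (G := G) (v := v) hab hℓ hv hD (D' := D - 1) (n := n + 1)
        (fun x hx => by
          have h2 : dnn G ℓ x + upn G ℓ x = dgr G x := dn_up hℓ x
          have h3 := dn_pos hs hG v x (by
            have : ℓ x = n + 1 := hx
            have e : G.dist v x = n + 1 := this
            omega)
          have h4 := hD x
          have h3' : 1 ≤ dnn G ℓ x := h3
          show upn G ℓ x ≤ D - 1
          omega)
      have h2 := TT_eq (G := G) (a := a) (b := b) v ℓ (n + 1)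
      have h3 : (q : ℝ) * TT G a b v ℓ (n + 1 + 1)
          ≤ D * TT G a b v ℓ (n + 1 + 1) + ((D : ℝ) - 1) * SS G a b v ℓ (n + 1) := by
        have : ((D - 1 : ℕ) : ℝ) = (D : ℝ) - 1 := by push_cast [Nat.cast_sub hD1]; ring
        rw [← this]
        exact_mod_cast h1
      have h4 : (TT G a b v ℓ (n + 1) : ℝ) = SS G a b v ℓ (n + 1) + TT G a b v ℓ (n + 1 + 1) := by
        exact_mod_cast h2
      have h5 : (TT G a b v ℓ (n + 1 + 1) : ℝ)
          ≤ ((D : ℝ) - 1) / ((q : ℝ) - 1) * TT G a b v ℓ (n + 1) := by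
        rw [div_mul_eq_mul_div, le_div_iff₀ hq1, h4]
        linarith
      have h6 : (0 : ℝ) ≤ ((D : ℝ) - 1) / ((q : ℝ) - 1) := div_nonneg (by linarith) hq1.le
      refine h5.trans ((mul_le_mul_of_nonneg_left ih h6).trans (le_of_eq ?_))
      rw [pow_succ]
      ring
  have h1 : ∑ u ∈ univ.filter (fun u => n + 1 ≤ G.dist v u), |corr G C u v|
      ≤ ∑ u ∈ univ.filter (fun u => n + 1 ≤ ℓ u), (mm G a b v u : ℝ) / N :=
    sum_le_sum fun u _ => corr_le hs hab v u
  refine h1.trans ?_
  rw [← sum_div, div_le_iff₀ hNr]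
  have h2 : ∑ u ∈ univ.filter (fun u => n + 1 ≤ ℓ u), (mm G a b v u : ℝ)
      = (TT G a b v ℓ (n + 1) : ℝ) := by
    unfold TT
    push_cast
    rfl
  rw [h2, mul_comm]
  exact hrec n

end

/-- **Boxes, `q ≥ 2 d`.** -/
theorem box_decay {d q : ℕ} (hd : 2 ≤ d) (hq : 2 * d ≤ q) : ∃ K ρ : ℝ, 0 < K ∧ 0 < ρ ∧ ρ < 1 ∧
    ∀ (L : ℕ) (u v : Fin d → Fin L), |corr (box d L) (Fin q) u v| ≤ K * ρ ^ l1 u v := by
  set κ : ℝ := ((9 * (q * 2 ^ (2 * d)) ^ 7 : ℕ) : ℝ) with hκ
  have hκ1 : 1 ≤ κ := by
    rw [hκ]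
    have : 1 ≤ 9 * (q * 2 ^ (2 * d)) ^ 7 := by
      have h1 : 0 < q * 2 ^ (2 * d) := Nat.mul_pos (by omega) (by positivity)
      have h2 : 0 < (q * 2 ^ (2 * d)) ^ 7 := by positivity
      omega
    exact_mod_cast this
  obtain ⟨K, ρ, hK, hρ, hρ1, hnum⟩ := numeric κ hκ1
  refine ⟨K + 1, ρ, by linarith, hρ, hρ1, ?_⟩
  intro L u v
  have hcard : Fintype.card (Fin q) = q := Fintype.card_fin q
  have hs := side_ne (level_step v)
  obtain ⟨a, b, hab⟩ : ∃ a b : Fin q, a ≠ b :=
    ⟨⟨0, by omega⟩, ⟨1, by omega⟩, fun h => by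
      have := congrArg Fin.val h; simp at this⟩
  rcases Nat.lt_or_ge L 2 with hL | hL
  · -- at most one point
    have huv : u = v := by
      funext i
      apply Fin.ext
      have := (u i).2
      have := (v i).2
      omega
    rw [huv, l1_self, pow_zero, mul_one]
    have := corr_le_one (C := Fin q) hs hab v v
    linarith
  · set N := num (box d L) (fun σ : _ → Fin q => σ v = a) with hN
    have hNpos : 0 < N := num_pos hs hab v
    have hNr : (0 : ℝ) < N := by exact_mod_cast hNpos
    set ℓ : (Fin d → Fin L) → ℕ := fun x => l1 x v with hℓ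
    have hineq : ∀ n, (TT (box d L) a b v ℓ (n + 5) : ℝ) ≤ κ * SS (box d L) a b v ℓ n := by
      intro n
      have := ineq_box (C := Fin q) hd hL (by rw [hcard]; exact hq) hab v n
      rw [hcard] at this
      rw [hκ]
      exact_mod_cast this
    have hS0 : (SS (box d L) a b v ℓ 0 : ℝ) ≤ N := by
      have : SS (box d L) a b v ℓ 0 ≤ N := SS_zero fun x hx => l1_zero hx
      exact_mod_cast this
    have key := hnum (fun n => (TT (box d L) a b v ℓ n : ℝ)) N (mm (box d L) a b v u) (l1 u v)
      hNr.le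
      (fun i j hij => by
        have := TT_anti (G := box d L) (a := a) (b := b) v ℓ hij
        exact_mod_cast this)
      (fun j => by
        have h1 := hineq j
        have h2 := TT_eq (G := box d L) (a := a) (b := b) v ℓ j
        have h3 := TT_anti (G := box d L) (a := a) (b := b) v ℓ (show j + 1 ≤ j + 5 by omega)
        have h4 : (TT (box d L) a b v ℓ j : ℝ)
            = SS (box d L) a b v ℓ j + TT (box d L) a b v ℓ (j + 1) := by exact_mod_cast h2
        have h5 : (TT (box d L) a b v ℓ (j + 5) : ℝ) ≤ TT (box d L) a b v ℓ (j + 1) := by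
          exact_mod_cast h3
        have h6 : κ * TT (box d L) a b v ℓ (j + 5) ≤ κ * TT (box d L) a b v ℓ (j + 1) :=
          mul_le_mul_of_nonneg_left h5 (by linarith)
        rw [h4]
        linarith)
      ((hineq 0).trans (mul_le_mul_of_nonneg_left hS0 (by linarith)))
      (by exact_mod_cast mm_le v u)
      (by exact_mod_cast mm_le_TT v u ℓ)
    have h1 := corr_le (C := Fin q) hs hab v u
    refine h1.trans ?_
    rw [div_le_iff₀ hNr]
    have h2 : (0 : ℝ) < ρ ^ l1 u v := pow_pos hρ _
    calc (mm (box d L) a b v u : ℝ) ≤ N * (K * ρ ^ l1 u v) := key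
      _ ≤ (K + 1) * ρ ^ l1 u v * N := by nlinarith [mul_pos h2 hNr]

end Pool.Agent.H23K
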