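import Pool.Agent.H23K.Edges

/-!
Local surgery: adding a neighbour to the cluster costs a bounded factor.
-/

set_option autoImplicit false
set_option linter.unusedSectionVars false

open Finset

namespace Pool.Agent.H23K

section
variable {V C : Type} [Fintype V] [DecidableEq V] [Fintype C] [DecidableEq C]
variable {G : SimpleGraph V} {a b : C}

/-- the colour which a vertex has if it belongs to the cluster of `v` -/
def pat (a b : C) (s : V → Bool) (v x : V) : C := if s x = s v then a else b

theorem pat_in (s : V → Bool) (v x : V) : pat a b s v x = a ∨ pat a b s v x = b := by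
  unfold pat
  split_ifs
  · left; rfl
  · right; rfl

theorem pat_ne {s : V → Bool} (hab : a ≠ b) (v : V) {x y : V} (h : s x ≠ s y) :
    pat a b s v x ≠ pat a b s v y := by
  unfold pat
  cases h1 : s x <;> cases h2 : s y <;> cases h3 : s v <;> simp_all [hab.symm]

theorem pat_self (s : V → Bool) (v : V) : pat a b s v v = a := by
  unfold pat; rw [if_pos rfl]

theorem in_ne_pat {s : V → Bool} {v x : V} {c : C} (hc : c = a ∨ c = b)
    (h : c ≠ pat a b s v x) : Equiv.swap a b c = pat a b s v x := by
  unfold pat at *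
  split_ifs at * <;> rcases hc with h1 | h1
  · exact absurd h1 h
  · rw [h1, Equiv.swap_apply_right]
  · rw [h1, Equiv.swap_apply_left]
  · exact absurd h1 h

/-- if the vertex has colour `a` or `b`, it has the colour of the pattern -/
def Aligned (a b : C) (s : V → Bool) (v : V) (σ : V → C) (y : V) : Prop :=
  (σ y = a ∨ σ y = b) → σ y = pat a b s v y

/-- alignment propagates along clusters -/
theorem aligned_prop {s : V → Bool} (hs : ∀ x y, G.Adj x y → s x ≠ s y) {σ : V → C} {v : V}
    (hσ : Proper G σ) {x y : V} (h : Rch G a b σ x y)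
    (hx : σ x = a ∨ σ x = b) (hx' : σ x = pat a b s v x) : σ y = pat a b s v y := by
  rw [h.colour hs hσ hx, hx']
  unfold pat
  cases h1 : s x <;> cases h2 : s y <;> cases h3 : s v <;> simp

open Classical in
/-- aligning one vertex -/
theorem align_one {s : V → Bool} (hs : ∀ x y, G.Adj x y → s x ≠ s y)
    (v : V) (A Y : Finset V) (y : V) :
    num G (fun σ => (σ v = a ∧ ∀ u ∈ A, Rch G a b σ v u) ∧ ∀ z ∈ Y, Aligned a b s v σ z)
      ≤ 2 * num G (fun σ => (σ v = a ∧ ∀ u ∈ A, Rch G a b σ v u) ∧
        ∀ z ∈ insert y Y, Aligned a b s v σ z) := by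
  rw [← Fintype.card_bool]
  apply num_le_mul (fun σ => if Aligned a b s v σ y then σ else flip G a b y σ)
    (fun σ => decide (Aligned a b s v σ y))
  · rintro σ hσ ⟨⟨h1, h2⟩, h3⟩
    by_cases h : Aligned a b s v σ y
    · rw [if_pos h]
      refine ⟨hσ, ⟨h1, h2⟩, fun z hz => ?_⟩
      rcases mem_insert.1 hz with rfl | hz
      · exact h
      · exact h3 z hz
    · rw [if_neg h]
      unfold Aligned at h
      rw [Classical.not_imp] at h
      have key : ∀ z, Rch G a b σ y z → (σ z = a ∨ σ z = b) ∧ σ z ≠ pat a b s v z := by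
        intro z hz
        have hz' := hz.mem h.1
        exact ⟨hz', fun h4 => h.2 (aligned_prop hs hσ hz.symm hz' h4)⟩
      have hv : ¬ Rch G a b σ y v := fun hh => (key v hh).2 (by rw [h1, pat_self])
      refine ⟨proper_flip hσ y, ⟨?_, ?_⟩, ?_⟩
      · rw [flip_out hv, h1]
      · intro u hu
        rw [Rch_flip]
        exact h2 u hu
      · intro z hz hin
        rw [flip_in] at hin
        by_cases hyz : Rch G a b σ y z
        · rw [flip_mem hyz]
          exact in_ne_pat hin (key z hyz).2
        · rw [flip_out hyz]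
          rcases mem_insert.1 hz with rfl | hz
          · exact absurd (Rch.refl z) hyz
          · exact h3 z hz hin
  · intro σ τ _ _ _ _ h1 h2
    have h2' : Aligned a b s v σ y ↔ Aligned a b s v τ y := decide_eq_decide.1 h2
    by_cases h : Aligned a b s v σ y
    · simp only [if_pos h, if_pos (h2'.1 h)] at h1
      exact h1
    · have h' : ¬ Aligned a b s v τ y := fun h3 => h (h2'.2 h3)
      simp only [if_neg h, if_neg h'] at h1
      rw [← flip_flip (G := G) (a := a) (b := b) (σ := σ) y, h1, flip_flip]

/-- aligning a set of vertices -/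
theorem align_set {s : V → Bool} (hs : ∀ x y, G.Adj x y → s x ≠ s y)
    (v : V) (A Y : Finset V) :
    num G (fun σ => σ v = a ∧ ∀ u ∈ A, Rch G a b σ v u)
      ≤ 2 ^ Y.card * num G (fun σ => (σ v = a ∧ ∀ u ∈ A, Rch G a b σ v u) ∧
        ∀ z ∈ Y, Aligned a b s v σ z) := by
  induction Y using Finset.induction_on with
  | empty => 
    rw [card_empty, pow_zero, one_mul]
    apply le_of_eq
    apply num_congr
    intro σ _
    simp
  | @insert y Y hy ih =>
    rw [card_insert_of_notMem hy, pow_succ, mul_assoc]
    exact ih.trans (Nat.mul_le_mul_left _ (align_one hs v A Y y))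

open Classical in
/-- painting a vertex next to the cluster -/
theorem paint {s : V → Bool} (hs : ∀ x y, G.Adj x y → s x ≠ s y) (hab : a ≠ b)
    (v : V) (A : Finset V) {x y : V} (hy : y ∈ A) (hxy : G.Adj x y) :
    num G (fun σ => (σ v = a ∧ ∀ u ∈ A, Rch G a b σ v u) ∧
        ∀ z ∈ univ.filter (fun z => G.Adj x z), Aligned a b s v σ z)
      ≤ Fintype.card C * num G (fun σ => σ v = a ∧ ∀ u ∈ insert x A, Rch G a b σ v u) := by
  apply num_le_mul (fun σ => Function.update σ x (pat a b s v x)) (fun σ => σ x)
  · rintro σ hσ ⟨⟨h1, h2⟩, h3⟩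
    set τ := Function.update σ x (pat a b s v x) with hτ
    have hτx : τ x = pat a b s v x := by rw [hτ, Function.update_self]
    have hτn : ∀ z, z ≠ x → τ z = σ z := fun z hz => by rw [hτ, Function.update_of_ne hz]
    have hnb : ∀ z, G.Adj x z → pat a b s v x ≠ σ z := by
      intro z hz h
      have h4 : σ z = a ∨ σ z = b := by rw [← h]; exact pat_in s v x
      have h5 := h3 z (mem_filter.2 ⟨mem_univ _, hz⟩) h4
      rw [h5] at h
      exact pat_ne hab v (hs x z hz) h
    have hprop : Proper G τ := by
      intro z w hzw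
      by_cases hz : z = x
      · have hw : w ≠ x := by rintro rfl; exact hzw.ne hz
        rw [hz, hτx, hτn w hw]
        exact hnb w (hz ▸ hzw)
      · by_cases hw : w = x
        · rw [hw, hτx, hτn z hz]
          exact fun h => hnb z (hw ▸ hzw.symm) h.symm
        · rw [hτn z hz, hτn w hw]
          exact hσ z w hzw
    have hin : ∀ z, (σ z = a ∨ σ z = b) → (τ z = a ∨ τ z = b) := by
      intro z hz
      by_cases h : z = x
      · rw [h, hτx]; exact pat_in s v x
      · rw [hτn z h]; exact hz
    have hle : two G a b σ ≤ two G a b τ := by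
      intro z w hzw
      exact ⟨hzw.1, hin z hzw.2.1, hin w hzw.2.2⟩
    have hv : τ v = a := by
      by_cases h : v = x
      · rw [h, hτx, ← h, pat_self]
      · rw [hτn v h, h1]
    have hA : ∀ u ∈ A, Rch G a b τ v u := fun u hu => (h2 u hu).mono hle
    refine ⟨hprop, hv, fun u hu => ?_⟩
    rcases mem_insert.1 hu with rfl | hu
    · have h4 := hA y hy
      exact h4.step hxy.symm (h4.mem (Or.inl hv)) (by rw [hτx]; exact pat_in s v u)
    · exact hA u hu
  · intro σ τ _ _ _ _ h1 h2
    funext z
    by_cases h : z = x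
    · rw [h]; exact h2
    · have := congrFun h1 z
      simp only [Function.update_of_ne h] at this
      exact this

/-- **Growing the cluster by one vertex.** -/
theorem grow {s : V → Bool} (hs : ∀ x y, G.Adj x y → s x ≠ s y) (hab : a ≠ b)
    {K : ℕ} (hK : ∀ x, Fintype.card C * 2 ^ dgr G x ≤ K)
    (v : V) (A : Finset V) {x y : V} (hy : y ∈ A) (hxy : x = y ∨ G.Adj x y) :
    num G (fun σ => σ v = a ∧ ∀ u ∈ A, Rch G a b σ v u)
      ≤ K * num G (fun σ => σ v = a ∧ ∀ u ∈ insert x A, Rch G a b σ v u) := by
  classical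
  rcases hxy with rfl | hxy
  · rw [insert_eq_of_mem hy]
    have h1 : 1 ≤ K := by
      refine le_trans ?_ (hK x)
      have : 0 < Fintype.card C := Fintype.card_pos_iff.2 ⟨a⟩
      exact Nat.mul_pos this (by positivity)
    exact Nat.le_mul_of_pos_left _ h1
  · have h1 := align_set (a := a) (b := b) hs v A (univ.filter (fun z => G.Adj x z))
    have h2 := paint (a := a) (b := b) hs hab v A hy hxy
    refine h1.trans ((Nat.mul_le_mul_left _ h2).trans ?_)
    rw [← mul_assoc]
    apply Nat.mul_le_mul_right
    rw [mul_comm]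
    exact hK x

/-- growing along a walk (with possible rests) -/
theorem grow_path {s : V → Bool} (hs : ∀ x y, G.Adj x y → s x ≠ s y) (hab : a ≠ b)
    {K : ℕ} (hK : ∀ x, Fintype.card C * 2 ^ dgr G x ≤ K) (v : V) (w : ℕ → V) (k : ℕ)
    (hw : ∀ i < k, w (i + 1) = w i ∨ G.Adj (w (i + 1)) (w i)) :
    mm G a b v (w 0)
      ≤ K ^ k * num G (fun σ => σ v = a ∧ ∀ u ∈ (range (k + 1)).image w, Rch G a b σ v u) := by
  induction k with
  | zero =>
    rw [pow_zero, one_mul]
    apply le_of_eq
    unfold mm
    apply num_congr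
    intro σ _
    simp
  | succ k ih =>
    refine (ih fun i hi => hw i (by omega)).trans ?_
    rw [pow_succ, mul_assoc]
    apply Nat.mul_le_mul_left
    have h1 := grow (a := a) (b := b) hs hab hK v ((range (k + 1)).image w)
      (x := w (k + 1)) (y := w k) (mem_image_of_mem _ (by simp)) (hw k (by omega))
    rw [range_add_one (n := k + 1), image_insert]
    exact h1

end

end Pool.Agent.H23K
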