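import Pool.Agent.H23K.Kempe

/-!
The identity `q P(e ⊆ K) = P(x ∈ K) + P(y ∈ K)` for every edge `e = {x, y}` of a bipartite graph.
-/

set_option autoImplicit false
set_option linter.unusedSectionVars false

open Finset

namespace Pool.Agent.H23K

section
variable {V C : Type} [Fintype V] [DecidableEq V] [Fintype C] [DecidableEq C]
variable {G : SimpleGraph V} {a b : C}

/-- in a bipartite graph the colour is determined by the side, along a cluster -/
theorem Rch.colour {s : V → Bool} (hs : ∀ x y, G.Adj x y → s x ≠ s y) {σ : V → C}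
    (hσ : Proper G σ) {x y : V} (h : Rch G a b σ x y) (hx : σ x = a ∨ σ x = b) :
    σ y = if s y = s x then σ x else Equiv.swap a b (σ x) := by
  obtain ⟨p⟩ := h
  induction p with
  | nil => simp
  | @cons x z y hadj p ih =>
    have hne : σ x ≠ σ z := hσ x z hadj.1
    have hz : σ z = Equiv.swap a b (σ x) := by
      rcases hx with h1 | h1 <;> rcases hadj.2.2 with h2 | h2
      · exact absurd (h1.trans h2.symm) hne
      · rw [h1, h2, Equiv.swap_apply_left]
      · rw [h1, h2, Equiv.swap_apply_right]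
      · exact absurd (h1.trans h2.symm) hne
    have hsz := hs x z hadj.1
    rw [ih hadj.2.2, hz, Equiv.swap_apply_self]
    cases h1 : s x <;> cases h2 : s z <;> cases h3 : s y <;> simp_all

theorem Rch.same {s : V → Bool} (hs : ∀ x y, G.Adj x y → s x ≠ s y) {σ : V → C}
    (hσ : Proper G σ) {x y : V} (h : Rch G a b σ x y) (hx : σ x = a) (hxy : s y = s x) :
    σ y = a := by
  rw [h.colour hs hσ (Or.inl hx), if_pos hxy, hx]

theorem Rch.diff {s : V → Bool} (hs : ∀ x y, G.Adj x y → s x ≠ s y) {σ : V → C}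
    (hσ : Proper G σ) {x y : V} (h : Rch G a b σ x y) (hx : σ x = a) (hxy : s y ≠ s x) :
    σ y = b := by
  rw [h.colour hs hσ (Or.inl hx), if_neg hxy, hx, Equiv.swap_apply_left]

/-- number of the colourings with `σ v = a`, `σ p = x`, `σ w = y` -/
noncomputable def nn (G : SimpleGraph V) (a : C) (v p w : V) (x y : C) : ℕ :=
  num G (fun σ => σ v = a ∧ σ p = x ∧ σ w = y)

/-- the cluster of `v` contains `u` -/
noncomputable def mm (G : SimpleGraph V) (a b : C) (v u : V) : ℕ :=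
  num G (fun σ => σ v = a ∧ Rch G a b σ v u)

/-- the cluster of `v` contains `x` and `y` -/
noncomputable def ee (G : SimpleGraph V) (a b : C) (v x y : V) : ℕ :=
  num G (fun σ => σ v = a ∧ Rch G a b σ v x ∧ Rch G a b σ v y)

theorem ee_comm (v x y : V) : ee G a b v x y = ee G a b v y x :=
  num_congr fun _ _ => ⟨fun h => ⟨h.1, h.2.2, h.2.1⟩, fun h => ⟨h.1, h.2.2, h.2.1⟩⟩

/-- flipping does not change the colour of a vertex outside the cluster -/
theorem flip_out {σ : V → C} {p u : V} (h : ¬ Rch G a b σ p u) : flip G a b p σ u = σ u := by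
  rw [flip, if_neg h]

theorem flip_mem {σ : V → C} {p u : V} (h : Rch G a b σ p u) :
    flip G a b p σ u = Equiv.swap a b (σ u) := by
  rw [flip, if_pos h]

/-- a vertex of a third colour is not in the cluster of a vertex of colour `a` or `b` -/
theorem not_rch {σ : V → C} {p u : V} (hp : σ p = a ∨ σ p = b) (hu : σ u ≠ a) (hu' : σ u ≠ b) :
    ¬ Rch G a b σ p u := fun h => (h.mem hp).elim hu hu'

theorem step1 {s : V → Bool} (hs : ∀ x y, G.Adj x y → s x ≠ s y) {c : C} (hab : a ≠ b)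
    (hac : a ≠ c) (hbc : b ≠ c) (v p w : V) (hp : s p = s v) :
    nn G a v p w a c = num G (fun σ => σ v = a ∧ Rch G a b σ v p ∧ σ w = c) + nn G a v p w b c := by
  unfold nn
  rw [num_split (fun σ => σ v = a ∧ σ p = a ∧ σ w = c) (fun σ => Rch G a b σ v p),
    num_split (fun σ => σ v = a ∧ σ p = b ∧ σ w = c) (fun σ => Rch G a b σ v p)]
  have h0 : num G (fun σ => (σ v = a ∧ σ p = b ∧ σ w = c) ∧ Rch G a b σ v p) = 0 := by
    apply num_zero
    rintro σ hσ ⟨⟨h1, h2, _⟩, h3⟩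
    have := h3.same hs hσ h1 hp
    rw [h2] at this
    exact hab this.symm
  have h1 : num G (fun σ => (σ v = a ∧ σ p = a ∧ σ w = c) ∧ Rch G a b σ v p)
      = num G (fun σ => σ v = a ∧ Rch G a b σ v p ∧ σ w = c) := by
    apply num_congr
    intro σ hσ
    constructor
    · rintro ⟨⟨h1, _, h3⟩, h4⟩; exact ⟨h1, h4, h3⟩
    · rintro ⟨h1, h2, h3⟩; exact ⟨⟨h1, h2.same hs hσ h1 hp, h3⟩, h2⟩
  have h2 : num G (fun σ => (σ v = a ∧ σ p = a ∧ σ w = c) ∧ ¬ Rch G a b σ v p)
      = num G (fun σ => (σ v = a ∧ σ p = b ∧ σ w = c) ∧ ¬ Rch G a b σ v p) := by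
    apply num_flip (a := a) (b := b) p
    · rintro σ hσ ⟨⟨h1, h2, h3⟩, h4⟩
      have hv : ¬ Rch G a b σ p v := fun h => h4 h.symm
      have hw : ¬ Rch G a b σ p w := not_rch (Or.inl h2) (by rw [h3]; exact hac.symm)
        (by rw [h3]; exact hbc.symm)
      refine ⟨⟨?_, ?_, ?_⟩, fun h => h4 ((Rch_flip p v p).1 h)⟩
      · rw [flip_out hv, h1]
      · rw [flip_mem (Rch.refl p), h2, Equiv.swap_apply_left]
      · rw [flip_out hw, h3]
    · rintro σ hσ ⟨⟨h1, h2, h3⟩, h4⟩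
      have hv : ¬ Rch G a b σ p v := fun h => h4 h.symm
      have hw : ¬ Rch G a b σ p w := not_rch (Or.inr h2) (by rw [h3]; exact hac.symm)
        (by rw [h3]; exact hbc.symm)
      refine ⟨⟨?_, ?_, ?_⟩, fun h => h4 ((Rch_flip p v p).1 h)⟩
      · rw [flip_out hv, h1]
      · rw [flip_mem (Rch.refl p), h2, Equiv.swap_apply_right]
      · rw [flip_out hw, h3]
  rw [h0, h1, h2, zero_add]

theorem step2 {s : V → Bool} (hs : ∀ x y, G.Adj x y → s x ≠ s y) {c : C} (hab : a ≠ b)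
    (hac : a ≠ c) (hbc : b ≠ c) (v p w : V) (hw : s w ≠ s v) :
    nn G a v p w c b = num G (fun σ => σ v = a ∧ Rch G a b σ v w ∧ σ p = c) + nn G a v p w c a := by
  unfold nn
  rw [num_split (fun σ => σ v = a ∧ σ p = c ∧ σ w = b) (fun σ => Rch G a b σ v w),
    num_split (fun σ => σ v = a ∧ σ p = c ∧ σ w = a) (fun σ => Rch G a b σ v w)]
  have h0 : num G (fun σ => (σ v = a ∧ σ p = c ∧ σ w = a) ∧ Rch G a b σ v w) = 0 := by
    apply num_zero
    rintro σ hσ ⟨⟨h1, _, h2⟩, h3⟩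
    have := h3.diff hs hσ h1 hw
    rw [h2] at this
    exact hab this
  have h1 : num G (fun σ => (σ v = a ∧ σ p = c ∧ σ w = b) ∧ Rch G a b σ v w)
      = num G (fun σ => σ v = a ∧ Rch G a b σ v w ∧ σ p = c) := by
    apply num_congr
    intro σ hσ
    constructor
    · rintro ⟨⟨h1, h3, _⟩, h4⟩; exact ⟨h1, h4, h3⟩
    · rintro ⟨h1, h2, h3⟩; exact ⟨⟨h1, h3, h2.diff hs hσ h1 hw⟩, h2⟩
  have h2 : num G (fun σ => (σ v = a ∧ σ p = c ∧ σ w = b) ∧ ¬ Rch G a b σ v w)
      = num G (fun σ => (σ v = a ∧ σ p = c ∧ σ w = a) ∧ ¬ Rch G a b σ v w) := by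
    apply num_flip (a := a) (b := b) w
    · rintro σ hσ ⟨⟨h1, h3, h2⟩, h4⟩
      have hv : ¬ Rch G a b σ w v := fun h => h4 h.symm
      have hp : ¬ Rch G a b σ w p := not_rch (Or.inr h2) (by rw [h3]; exact hac.symm)
        (by rw [h3]; exact hbc.symm)
      refine ⟨⟨?_, ?_, ?_⟩, fun h => h4 ((Rch_flip w v w).1 h)⟩
      · rw [flip_out hv, h1]
      · rw [flip_out hp, h3]
      · rw [flip_mem (Rch.refl w), h2, Equiv.swap_apply_right]
    · rintro σ hσ ⟨⟨h1, h3, h2⟩, h4⟩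
      have hv : ¬ Rch G a b σ w v := fun h => h4 h.symm
      have hp : ¬ Rch G a b σ w p := not_rch (Or.inl h2) (by rw [h3]; exact hac.symm)
        (by rw [h3]; exact hbc.symm)
      refine ⟨⟨?_, ?_, ?_⟩, fun h => h4 ((Rch_flip w v w).1 h)⟩
      · rw [flip_out hv, h1]
      · rw [flip_out hp, h3]
      · rw [flip_mem (Rch.refl w), h2, Equiv.swap_apply_left]
  rw [h0, h1, h2, zero_add]

theorem step3 {s : V → Bool} (hs : ∀ x y, G.Adj x y → s x ≠ s y) (hab : a ≠ b)
    (v p w : V) (hpw : G.Adj p w) (hp : s p = s v) (hw : s w ≠ s v) :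
    nn G a v p w a b = ee G a b v p w + nn G a v p w b a := by
  unfold nn ee
  rw [num_split (fun σ => σ v = a ∧ σ p = a ∧ σ w = b) (fun σ => Rch G a b σ v p),
    num_split (fun σ => σ v = a ∧ σ p = b ∧ σ w = a) (fun σ => Rch G a b σ v p)]
  have h0 : num G (fun σ => (σ v = a ∧ σ p = b ∧ σ w = a) ∧ Rch G a b σ v p) = 0 := by
    apply num_zero
    rintro σ hσ ⟨⟨h1, h2, _⟩, h3⟩
    have := h3.same hs hσ h1 hp
    rw [h2] at this
    exact hab this.symm
  have h1 : num G (fun σ => (σ v = a ∧ σ p = a ∧ σ w = b) ∧ Rch G a b σ v p)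
      = num G (fun σ => σ v = a ∧ Rch G a b σ v p ∧ Rch G a b σ v w) := by
    apply num_congr
    intro σ hσ
    constructor
    · rintro ⟨⟨h1, h2, h3⟩, h4⟩
      exact ⟨h1, h4, h4.step hpw (Or.inl h2) (Or.inr h3)⟩
    · rintro ⟨h1, h2, h3⟩
      exact ⟨⟨h1, h2.same hs hσ h1 hp, h3.diff hs hσ h1 hw⟩, h2⟩
  have h2 : num G (fun σ => (σ v = a ∧ σ p = a ∧ σ w = b) ∧ ¬ Rch G a b σ v p)
      = num G (fun σ => (σ v = a ∧ σ p = b ∧ σ w = a) ∧ ¬ Rch G a b σ v p) := by
    apply num_flip (a := a) (b := b) p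
    · rintro σ hσ ⟨⟨h1, h2, h3⟩, h4⟩
      have hv : ¬ Rch G a b σ p v := fun h => h4 h.symm
      have hpw' : Rch G a b σ p w := (Rch.refl p).step hpw (Or.inl h2) (Or.inr h3)
      refine ⟨⟨?_, ?_, ?_⟩, fun h => h4 ((Rch_flip p v p).1 h)⟩
      · rw [flip_out hv, h1]
      · rw [flip_mem (Rch.refl p), h2, Equiv.swap_apply_left]
      · rw [flip_mem hpw', h3, Equiv.swap_apply_right]
    · rintro σ hσ ⟨⟨h1, h2, h3⟩, h4⟩
      have hv : ¬ Rch G a b σ p v := fun h => h4 h.symm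
      have hpw' : Rch G a b σ p w := (Rch.refl p).step hpw (Or.inr h2) (Or.inl h3)
      refine ⟨⟨?_, ?_, ?_⟩, fun h => h4 ((Rch_flip p v p).1 h)⟩
      · rw [flip_out hv, h1]
      · rw [flip_mem (Rch.refl p), h2, Equiv.swap_apply_right]
      · rw [flip_mem hpw', h3, Equiv.swap_apply_left]
  rw [h0, h1, h2, zero_add]

theorem nn_swap (π : Equiv.Perm C) (v p w : V) (x y : C) (ha : π a = a) :
    nn G a v p w (π x) (π y) = nn G a v p w x y := by
  unfold nn
  rw [num_perm π]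
  apply num_congr
  intro σ _
  constructor
  · rintro ⟨h1, h2, h3⟩
    exact ⟨π.injective (h1.trans ha.symm), π.injective h2, π.injective h3⟩
  · rintro ⟨h1, h2, h3⟩
    refine ⟨?_, ?_, ?_⟩
    · show π (σ v) = a
      rw [h1, ha]
    · show π (σ p) = π x
      rw [h2]
    · show π (σ w) = π y
      rw [h3]

/-- the identity for a third colour -/
theorem third {s : V → Bool} (hs : ∀ x y, G.Adj x y → s x ≠ s y) {c : C} (hab : a ≠ b)
    (hac : a ≠ c) (hbc : b ≠ c) (v p w : V) (hpw : G.Adj p w) (hp : s p = s v) (hw : s w ≠ s v) :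
    num G (fun σ => σ v = a ∧ Rch G a b σ v p ∧ σ w = c)
      + num G (fun σ => σ v = a ∧ Rch G a b σ v w ∧ σ p = c) = ee G a b v p w := by
  have h1 := step1 hs hab hac hbc v p w hp
  have h2 := step2 hs hab hac hbc v p w hw
  have h3 := step3 hs hab v p w hpw hp hw
  have ha : Equiv.swap b c a = a := Equiv.swap_apply_of_ne_of_ne hab hac
  have h4 := nn_swap (G := G) (Equiv.swap b c) v p w a b ha
  have h5 := nn_swap (G := G) (Equiv.swap b c) v p w b c ha
  have h6 := nn_swap (G := G) (Equiv.swap b c) v p w b a ha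
  rw [ha, Equiv.swap_apply_left] at h4
  rw [Equiv.swap_apply_left, Equiv.swap_apply_right] at h5
  rw [Equiv.swap_apply_left, ha] at h6
  omega

theorem num_fiber (P : (V → C) → Prop) (w : V) :
    num G P = ∑ c : C, num G (fun σ => P σ ∧ σ w = c) := by
  classical
  unfold num
  rw [card_eq_sum_card_fiberwise (f := fun σ : V → C => σ w) (t := univ) (fun _ _ => by simp)]
  apply sum_congr rfl
  intro c _
  rw [filter_filter]
  congr 1
  ext σ
  simp only [mem_filter, mem_univ, true_and, and_assoc]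

theorem fib1 {s : V → Bool} (hs : ∀ x y, G.Adj x y → s x ≠ s y) (hab : a ≠ b)
    (v p w : V) (hpw : G.Adj p w) (hp : s p = s v) (hw : s w ≠ s v) :
    mm G a b v p = ee G a b v p w + ∑ c ∈ (univ.erase a).erase b,
      num G (fun σ => σ v = a ∧ Rch G a b σ v p ∧ σ w = c) := by
  unfold mm
  rw [num_fiber _ w, ← add_sum_erase univ _ (mem_univ a),
    ← add_sum_erase (univ.erase a) _ (mem_erase.2 ⟨hab.symm, mem_univ b⟩)]
  have h0 : num G (fun σ => (σ v = a ∧ Rch G a b σ v p) ∧ σ w = a) = 0 := by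
    apply num_zero
    rintro σ hσ ⟨⟨h1, h2⟩, h3⟩
    exact hσ p w hpw ((h2.same hs hσ h1 hp).trans h3.symm)
  have h1 : num G (fun σ => (σ v = a ∧ Rch G a b σ v p) ∧ σ w = b) = ee G a b v p w := by
    apply num_congr
    intro σ hσ
    constructor
    · rintro ⟨⟨h1, h2⟩, h3⟩
      exact ⟨h1, h2, h2.step hpw (Or.inl (h2.same hs hσ h1 hp)) (Or.inr h3)⟩
    · rintro ⟨h1, h2, h3⟩
      exact ⟨⟨h1, h2⟩, h3.diff hs hσ h1 hw⟩
  rw [h0, h1, zero_add]
  congr 1
  apply sum_congr rfl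
  intro c _
  apply num_congr
  intro σ _
  exact and_assoc

theorem fib2 {s : V → Bool} (hs : ∀ x y, G.Adj x y → s x ≠ s y) (hab : a ≠ b)
    (v p w : V) (hpw : G.Adj p w) (hp : s p = s v) (hw : s w ≠ s v) :
    mm G a b v w = ee G a b v p w + ∑ c ∈ (univ.erase a).erase b,
      num G (fun σ => σ v = a ∧ Rch G a b σ v w ∧ σ p = c) := by
  unfold mm
  rw [num_fiber _ p, ← add_sum_erase univ _ (mem_univ a),
    ← add_sum_erase (univ.erase a) _ (mem_erase.2 ⟨hab.symm, mem_univ b⟩)]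
  have h0 : num G (fun σ => (σ v = a ∧ Rch G a b σ v w) ∧ σ p = b) = 0 := by
    apply num_zero
    rintro σ hσ ⟨⟨h1, h2⟩, h3⟩
    exact hσ p w hpw (h3.trans (h2.diff hs hσ h1 hw).symm)
  have h1 : num G (fun σ => (σ v = a ∧ Rch G a b σ v w) ∧ σ p = a) = ee G a b v p w := by
    apply num_congr
    intro σ hσ
    constructor
    · rintro ⟨⟨h1, h2⟩, h3⟩
      exact ⟨h1, h2.step hpw.symm (Or.inr (h2.diff hs hσ h1 hw)) (Or.inl h3), h2⟩
    · rintro ⟨h1, h2, h3⟩
      exact ⟨⟨h1, h3⟩, h2.same hs hσ h1 hp⟩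
  rw [h0, h1, zero_add]
  congr 1
  apply sum_congr rfl
  intro c _
  apply num_congr
  intro σ _
  exact and_assoc

theorem ident_aux {s : V → Bool} (hs : ∀ x y, G.Adj x y → s x ≠ s y) (hab : a ≠ b)
    (v p w : V) (hpw : G.Adj p w) (hp : s p = s v) (hw : s w ≠ s v) :
    mm G a b v p + mm G a b v w = Fintype.card C * ee G a b v p w := by
  rw [fib1 hs hab v p w hpw hp hw, fib2 hs hab v p w hpw hp hw]
  have h1 : ∑ c ∈ (univ.erase a).erase b, num G (fun σ => σ v = a ∧ Rch G a b σ v p ∧ σ w = c)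
      + ∑ c ∈ (univ.erase a).erase b, num G (fun σ => σ v = a ∧ Rch G a b σ v w ∧ σ p = c)
      = ((univ.erase a).erase b).card * ee G a b v p w := by
    rw [← sum_add_distrib, ← smul_eq_mul, ← sum_const]
    apply sum_congr rfl
    intro c hc
    rw [mem_erase, mem_erase] at hc
    exact third hs hab (fun h => hc.2.1 h.symm) (fun h => hc.1 h.symm) v p w hpw hp hw
  have h2 : ((univ.erase a).erase b).card + 2 = Fintype.card C := by
    rw [card_erase_of_mem (mem_erase.2 ⟨hab.symm, mem_univ b⟩), card_erase_of_mem (mem_univ a),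
      card_univ]
    have : 2 ≤ Fintype.card C := by
      rw [← card_univ]
      calc 2 = ({a, b} : Finset C).card := (card_pair hab).symm
        _ ≤ _ := card_le_univ _
    omega
  rw [← h2, add_mul]
  linarith

/-- **The identity.** -/
theorem ident {s : V → Bool} (hs : ∀ x y, G.Adj x y → s x ≠ s y) (hab : a ≠ b)
    (v x y : V) (hxy : G.Adj x y) :
    mm G a b v x + mm G a b v y = Fintype.card C * ee G a b v x y := by
  by_cases hx : s x = s v
  · exact ident_aux hs hab v x y hxy hx (fun h => hs x y hxy (hx.trans h.symm))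
  · have hy : s y = s v := by
      have := hs x y hxy
      cases h1 : s x <;> cases h2 : s y <;> cases h3 : s v <;> simp_all
    rw [add_comm, ee_comm]
    exact ident_aux hs hab v y x hxy.symm hy hx

/-- the two-point function: same side -/
theorem two_same {s : V → Bool} (hs : ∀ x y, G.Adj x y → s x ≠ s y) (hab : a ≠ b)
    (v u : V) (hu : s u = s v) :
    num G (fun σ => σ v = a ∧ σ u = a) = mm G a b v u + num G (fun σ => σ v = a ∧ σ u = b) := by
  unfold mm
  rw [num_split (fun σ => σ v = a ∧ σ u = a) (fun σ => Rch G a b σ v u),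
    num_split (fun σ => σ v = a ∧ σ u = b) (fun σ => Rch G a b σ v u)]
  have h0 : num G (fun σ => (σ v = a ∧ σ u = b) ∧ Rch G a b σ v u) = 0 := by
    apply num_zero
    rintro σ hσ ⟨⟨h1, h2⟩, h3⟩
    have := h3.same hs hσ h1 hu
    rw [h2] at this
    exact hab this.symm
  have h1 : num G (fun σ => (σ v = a ∧ σ u = a) ∧ Rch G a b σ v u)
      = num G (fun σ => σ v = a ∧ Rch G a b σ v u) := by
    apply num_congr
    intro σ hσ
    constructor
    · rintro ⟨⟨h1, _⟩, h4⟩; exact ⟨h1, h4⟩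
    · rintro ⟨h1, h2⟩; exact ⟨⟨h1, h2.same hs hσ h1 hu⟩, h2⟩
  have h2 : num G (fun σ => (σ v = a ∧ σ u = a) ∧ ¬ Rch G a b σ v u)
      = num G (fun σ => (σ v = a ∧ σ u = b) ∧ ¬ Rch G a b σ v u) := by
    apply num_flip (a := a) (b := b) u
    · rintro σ hσ ⟨⟨h1, h2⟩, h4⟩
      refine ⟨⟨?_, ?_⟩, fun h => h4 ((Rch_flip u v u).1 h)⟩
      · rw [flip_out (fun h => h4 h.symm), h1]
      · rw [flip_mem (Rch.refl u), h2, Equiv.swap_apply_left]
    · rintro σ hσ ⟨⟨h1, h2⟩, h4⟩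
      refine ⟨⟨?_, ?_⟩, fun h => h4 ((Rch_flip u v u).1 h)⟩
      · rw [flip_out (fun h => h4 h.symm), h1]
      · rw [flip_mem (Rch.refl u), h2, Equiv.swap_apply_right]
  rw [h0, h1, h2, zero_add]

/-- the two-point function: different sides -/
theorem two_diff {s : V → Bool} (hs : ∀ x y, G.Adj x y → s x ≠ s y) (hab : a ≠ b)
    (v u : V) (hu : s u ≠ s v) :
    num G (fun σ => σ v = a ∧ σ u = b) = mm G a b v u + num G (fun σ => σ v = a ∧ σ u = a) := by
  unfold mm
  rw [num_split (fun σ => σ v = a ∧ σ u = b) (fun σ => Rch G a b σ v u),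
    num_split (fun σ => σ v = a ∧ σ u = a) (fun σ => Rch G a b σ v u)]
  have h0 : num G (fun σ => (σ v = a ∧ σ u = a) ∧ Rch G a b σ v u) = 0 := by
    apply num_zero
    rintro σ hσ ⟨⟨h1, h2⟩, h3⟩
    have := h3.diff hs hσ h1 hu
    rw [h2] at this
    exact hab this
  have h1 : num G (fun σ => (σ v = a ∧ σ u = b) ∧ Rch G a b σ v u)
      = num G (fun σ => σ v = a ∧ Rch G a b σ v u) := by
    apply num_congr
    intro σ hσ
    constructor
    · rintro ⟨⟨h1, _⟩, h4⟩; exact ⟨h1, h4⟩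
    · rintro ⟨h1, h2⟩; exact ⟨⟨h1, h2.diff hs hσ h1 hu⟩, h2⟩
  have h2 : num G (fun σ => (σ v = a ∧ σ u = b) ∧ ¬ Rch G a b σ v u)
      = num G (fun σ => (σ v = a ∧ σ u = a) ∧ ¬ Rch G a b σ v u) := by
    apply num_flip (a := a) (b := b) u
    · rintro σ hσ ⟨⟨h1, h2⟩, h4⟩
      refine ⟨⟨?_, ?_⟩, fun h => h4 ((Rch_flip u v u).1 h)⟩
      · rw [flip_out (fun h => h4 h.symm), h1]
      · rw [flip_mem (Rch.refl u), h2, Equiv.swap_apply_right]
    · rintro σ hσ ⟨⟨h1, h2⟩, h4⟩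
      refine ⟨⟨?_, ?_⟩, fun h => h4 ((Rch_flip u v u).1 h)⟩
      · rw [flip_out (fun h => h4 h.symm), h1]
      · rw [flip_mem (Rch.refl u), h2, Equiv.swap_apply_left]
  rw [h0, h1, h2, zero_add]

end

end Pool.Agent.H23K
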