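import Mathlib

/-!
Kempe clusters in proper colourings of a finite bipartite graph, and the identity
`q P(e ⊆ K) = P(x ∈ K) + P(y ∈ K)` for every edge `e = {x, y}`.
-/

set_option autoImplicit false
set_option linter.unusedSectionVars false

open Finset

namespace Pool.Agent.H23K

section
variable {V C : Type} [Fintype V] [DecidableEq V] [Fintype C] [DecidableEq C]

/-- proper colourings -/
def Proper (G : SimpleGraph V) (σ : V → C) : Prop := ∀ x y, G.Adj x y → σ x ≠ σ y

open Classical in
/-- number of the proper colourings with the property `P` -/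
noncomputable def num (G : SimpleGraph V) (P : (V → C) → Prop) : ℕ :=
  (univ.filter (fun σ : V → C => Proper G σ ∧ P σ)).card

/-- the graph on the vertices of the colours `a`, `b` -/
def two (G : SimpleGraph V) (a b : C) (σ : V → C) : SimpleGraph V where
  Adj x y := G.Adj x y ∧ (σ x = a ∨ σ x = b) ∧ (σ y = a ∨ σ y = b)
  symm := ⟨fun _ _ h => ⟨h.1.symm, h.2.2, h.2.1⟩⟩
  loopless := ⟨fun _ h => h.1.ne rfl⟩

/-- `y` is in the `a`-`b`-cluster of `x` -/
def Rch (G : SimpleGraph V) (a b : C) (σ : V → C) (x y : V) : Prop := (two G a b σ).Reachable x y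

variable {G : SimpleGraph V} {a b : C} {σ : V → C}

theorem Rch.refl (x : V) : Rch G a b σ x x := SimpleGraph.Reachable.refl x
theorem Rch.symm {x y : V} (h : Rch G a b σ x y) : Rch G a b σ y x := SimpleGraph.Reachable.symm h
theorem Rch.trans {x y z : V} (h : Rch G a b σ x y) (h' : Rch G a b σ y z) : Rch G a b σ x z :=
  SimpleGraph.Reachable.trans h h'

/-- one more step -/
theorem Rch.step {x y z : V} (h : Rch G a b σ x y) (hyz : G.Adj y z) (hy : σ y = a ∨ σ y = b)
    (hz : σ z = a ∨ σ z = b) : Rch G a b σ x z :=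
  h.trans (SimpleGraph.Adj.reachable (G := two G a b σ) ⟨hyz, hy, hz⟩)

/-- everything reachable from a vertex of colour `a` or `b` has colour `a` or `b` -/
theorem Rch.mem {x y : V} (h : Rch G a b σ x y) (hx : σ x = a ∨ σ x = b) :
    σ y = a ∨ σ y = b := by
  obtain ⟨p⟩ := h
  induction p with
  | nil => exact hx
  | cons hadj p ih => exact ih hadj.2.2

open Classical in
/-- exchange the two colours on the cluster of `p` -/
noncomputable def flip (G : SimpleGraph V) (a b : C) (p : V) (σ : V → C) : V → C :=
  fun u => if Rch G a b σ p u then Equiv.swap a b (σ u) else σ u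

theorem swap_in {a b c : C} : (Equiv.swap a b c = a ∨ Equiv.swap a b c = b) ↔ (c = a ∨ c = b) := by
  constructor
  · rintro (h | h)
    · right
      have := congrArg (Equiv.swap a b) h
      rwa [Equiv.swap_apply_self, Equiv.swap_apply_left] at this
    · left
      have := congrArg (Equiv.swap a b) h
      rwa [Equiv.swap_apply_self, Equiv.swap_apply_right] at this
  · rintro (rfl | rfl)
    · right; exact Equiv.swap_apply_left _ _
    · left; exact Equiv.swap_apply_right _ _

theorem flip_in (p u : V) : (flip G a b p σ u = a ∨ flip G a b p σ u = b) ↔ (σ u = a ∨ σ u = b) := by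
  unfold flip
  split_ifs
  · exact swap_in
  · rfl

theorem two_flip (p : V) : two G a b (flip G a b p σ) = two G a b σ := by
  ext x y
  unfold two
  simp only
  rw [flip_in, flip_in]

theorem Rch_flip (p x y : V) : Rch G a b (flip G a b p σ) x y ↔ Rch G a b σ x y := by
  unfold Rch
  rw [two_flip]

theorem flip_flip (p : V) : flip G a b p (flip G a b p σ) = σ := by
  funext u
  by_cases h : Rch G a b σ p u
  · have h' : Rch G a b (flip G a b p σ) p u := (Rch_flip p p u).2 h
    rw [flip, if_pos h', flip, if_pos h, Equiv.swap_apply_self]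
  · have h' : ¬ Rch G a b (flip G a b p σ) p u := fun hh => h ((Rch_flip p p u).1 hh)
    rw [flip, if_neg h', flip, if_neg h]

theorem proper_flip (hσ : Proper G σ) (p : V) : Proper G (flip G a b p σ) := by
  have key : ∀ x y, G.Adj x y → Rch G a b σ p x → ¬ Rch G a b σ p y →
      Equiv.swap a b (σ x) ≠ σ y := by
    intro x y hxy hx hy h
    by_cases hin : σ x = a ∨ σ x = b
    · have h2 : σ y = a ∨ σ y = b := by rw [← h]; exact swap_in.2 hin
      exact hy (hx.step hxy hin h2)
    · push Not at hin
      rw [Equiv.swap_apply_of_ne_of_ne hin.1 hin.2] at h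
      exact hσ x y hxy h
  intro x y hxy
  unfold flip
  by_cases hx : Rch G a b σ p x <;> by_cases hy : Rch G a b σ p y
  · rw [if_pos hx, if_pos hy]
    intro h
    exact hσ x y hxy ((Equiv.swap a b).injective h)
  · rw [if_pos hx, if_neg hy]
    exact key x y hxy hx hy
  · rw [if_neg hx, if_pos hy]
    exact fun h => key y x hxy.symm hy hx h.symm
  · rw [if_neg hx, if_neg hy]
    exact hσ x y hxy

/-! ### counting -/

theorem num_congr {P Q : (V → C) → Prop} (h : ∀ σ, Proper G σ → (P σ ↔ Q σ)) :
    num G P = num G Q := by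
  classical
  unfold num
  congr 1
  ext σ
  simp only [mem_filter, mem_univ, true_and]
  constructor
  · rintro ⟨h1, h2⟩; exact ⟨h1, (h σ h1).1 h2⟩
  · rintro ⟨h1, h2⟩; exact ⟨h1, (h σ h1).2 h2⟩

theorem num_mono {P Q : (V → C) → Prop} (h : ∀ σ, Proper G σ → P σ → Q σ) :
    num G P ≤ num G Q := by
  classical
  unfold num
  apply card_le_card
  intro σ
  simp only [mem_filter, mem_univ, true_and]
  rintro ⟨h1, h2⟩; exact ⟨h1, h σ h1 h2⟩

theorem num_split (P Q : (V → C) → Prop) :
    num G P = num G (fun σ => P σ ∧ Q σ) + num G (fun σ => P σ ∧ ¬ Q σ) := by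
  classical
  unfold num
  rw [← card_filter_add_card_filter_not (s := univ.filter (fun σ : V → C => Proper G σ ∧ P σ))
    (fun σ => Q σ)]
  rw [filter_filter, filter_filter]
  congr 2
  · ext σ; simp only [mem_filter, mem_univ, true_and, and_assoc]
  · ext σ; simp only [mem_filter, mem_univ, true_and, and_assoc]

theorem num_zero {P : (V → C) → Prop} (h : ∀ σ, Proper G σ → ¬ P σ) : num G P = 0 := by
  classical
  unfold num
  rw [card_eq_zero, filter_eq_empty_iff]
  rintro σ - ⟨h1, h2⟩
  exact h σ h1 h2

/-- an injective map -/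
theorem num_le_of_inj {P Q : (V → C) → Prop} (f : (V → C) → (V → C))
    (hf : ∀ σ, Proper G σ → P σ → Proper G (f σ) ∧ Q (f σ))
    (hi : ∀ σ τ, Proper G σ → P σ → Proper G τ → P τ → f σ = f τ → σ = τ) :
    num G P ≤ num G Q := by
  classical
  unfold num
  apply card_le_card_of_injOn f
  · intro σ hσ
    rw [mem_coe, mem_filter] at hσ
    rw [mem_coe, mem_filter]
    exact ⟨mem_univ _, hf σ hσ.2.1 hσ.2.2⟩
  · intro σ hσ τ hτ h
    rw [mem_coe, mem_filter] at hσ hτ
    exact hi σ τ hσ.2.1 hσ.2.2 hτ.2.1 hτ.2.2 h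

/-- a map which is at most `k` to one, the preimages being distinguished by a tag -/
theorem num_le_mul {T : Type} [Fintype T] {P Q : (V → C) → Prop} (f : (V → C) → (V → C))
    (t : (V → C) → T)
    (hf : ∀ σ, Proper G σ → P σ → Proper G (f σ) ∧ Q (f σ))
    (hi : ∀ σ τ, Proper G σ → P σ → Proper G τ → P τ → f σ = f τ → t σ = t τ → σ = τ) :
    num G P ≤ Fintype.card T * num G Q := by
  classical
  unfold num
  rw [← card_univ (α := T), ← card_product]
  apply card_le_card_of_injOn (fun σ => (t σ, f σ))
  · intro σ hσ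
    rw [mem_coe, mem_filter] at hσ
    rw [mem_coe, mem_product, mem_filter]
    exact ⟨mem_univ _, mem_univ _, hf σ hσ.2.1 hσ.2.2⟩
  · intro σ hσ τ hτ h
    rw [mem_coe, mem_filter] at hσ hτ
    have h1 := congrArg Prod.fst h
    have h2 := congrArg Prod.snd h
    exact hi σ τ hσ.2.1 hσ.2.2 hτ.2.1 hτ.2.2 h2 h1

/-- a permutation of the colours -/
theorem num_perm (π : Equiv.Perm C) (P : (V → C) → Prop) :
    num G P = num G (fun σ => P (fun u => π (σ u))) := by
  classical
  apply le_antisymm
  · apply num_le_of_inj (fun σ u => π.symm (σ u))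
    · intro σ hσ hP
      refine ⟨fun x y hxy h => hσ x y hxy (π.symm.injective h), ?_⟩
      simpa using hP
    · intro σ τ _ _ _ _ h
      funext u
      exact π.symm.injective (congrFun h u)
  · apply num_le_of_inj (fun σ u => π (σ u))
    · intro σ hσ hP
      exact ⟨fun x y hxy h => hσ x y hxy (π.injective h), hP⟩
    · intro σ τ _ _ _ _ h
      funext u
      exact π.injective (congrFun h u)

/-- flipping the cluster of `p` is a bijection -/
theorem num_flip (p : V) (P Q : (V → C) → Prop)
    (h1 : ∀ σ, Proper G σ → P σ → Q (flip G a b p σ))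
    (h2 : ∀ σ, Proper G σ → Q σ → P (flip G a b p σ)) : num G P = num G Q := by
  apply le_antisymm
  · apply num_le_of_inj (flip G a b p)
    · intro σ hσ hP
      exact ⟨proper_flip hσ p, h1 σ hσ hP⟩
    · intro σ τ _ _ _ _ h
      rw [← flip_flip (G := G) (a := a) (b := b) (σ := σ) p, h, flip_flip]
  · apply num_le_of_inj (flip G a b p)
    · intro σ hσ hP
      exact ⟨proper_flip hσ p, h2 σ hσ hP⟩
    · intro σ τ _ _ _ _ h
      rw [← flip_flip (G := G) (a := a) (b := b) (σ := σ) p, h, flip_flip]

end

end Pool.Agent.H23K
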